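import Pool.Agent.Y661.GD.Fin
import Pool.Agent.Y661.BG.All

/-! Gaussian disorder: the profile of the resolvent, the final theorem. -/

set_option autoImplicit false
set_option linter.unusedSectionVars false

open scoped BigOperators
open MeasureTheory ProbabilityTheory

namespace Pool.Agent.Y661.GD

open Pool.Agent.W788.LD.Spec (S)
open Pool.Agent.H4R2.LO (Zd)
open Pool.Agent.TH794.QE (Rs)
open Pool.Agent.TH794.HK (ph)
open Pool.Agent.TH794.QD (GF F0 F1)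

variable {d : ℕ}

/-- `u = (Δ + W - E - iη)⁻¹ δ_a` -/
def Gr (W : Zd d → ℝ) (a : Zd d) (E η : ℝ) (u : Zd d → ℂ) : Prop :=
  (Summable fun x => ‖u x‖ ^ 2) ∧ ∀ x, S u x + (W x : ℂ) * u x -
    ((E : ℂ) + (η : ℂ) * Complex.I) * u x = if x = a then 1 else 0

theorem S_conj (u : Zd d → ℂ) (x : Zd d) :
    S (fun x => -(starRingEnd ℂ) (u x)) x = -(starRingEnd ℂ) (S u x) := by
  unfold S
  rw [map_sum, ← Finset.sum_neg_distrib]
  refine Finset.sum_congr rfl fun i _ => ?_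
  rw [map_add]
  ring

theorem gr_rs (W : Zd d → ℝ) (a : Zd d) (E η : ℝ) (u : Zd d → ℂ) (h : Gr W a E η u) :
    Rs d (fun x => -W x) a (-E) η (fun x => -(starRingEnd ℂ) (u x)) := by
  refine ⟨?_, fun x => ?_⟩
  · simp only [norm_neg, RCLike.norm_conj]
    exact h.1
  · have h1 := congrArg (starRingEnd ℂ) (h.2 x)
    rw [S_conj]
    have h2 : (starRingEnd ℂ) (if x = a then (1 : ℂ) else 0) = if x = a then 1 else 0 := by
      split_ifs <;> simp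
    rw [h2, map_sub, map_add, map_mul, map_mul, map_add, map_mul, Complex.conj_ofReal,
      Complex.conj_ofReal, Complex.conj_ofReal, Complex.conj_I] at h1
    rw [← h1]
    push_cast
    ring

theorem rs_gr (W : Zd d → ℝ) (a : Zd d) (E η : ℝ) (u : Zd d → ℂ)
    (h : Rs d (fun x => -W x) a (-E) η u) : Gr W a E η (fun x => -(starRingEnd ℂ) (u x)) := by
  refine ⟨?_, fun x => ?_⟩
  · simp only [norm_neg, RCLike.norm_conj]
    exact h.sq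
  · have h1 := congrArg (starRingEnd ℂ) (h.eq x)
    rw [S_conj]
    have h2 : (starRingEnd ℂ) (if x = a then (1 : ℂ) else 0) = if x = a then 1 else 0 := by
      split_ifs <;> simp
    rw [h2, map_sub, map_add, map_neg, map_mul, map_mul, map_add, map_mul, Complex.conj_ofReal,
      Complex.conj_ofReal, Complex.conj_ofReal, Complex.conj_I] at h1
    rw [← h1]
    push_cast
    ring

/-- the conclusion for one coupling and one configuration -/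
def ProfAt (d : ℕ) (κ K σ : ℝ) (ξ : Zd d → ℝ) : Prop :=
  ∀ a : Zd d, ‖a‖ ≤ Real.exp (|σ| ^ (-(1 / 1000) : ℝ)) →
    ∀ E : ℝ, |E| ≤ 2 * d - κ → ∀ η : ℝ, |σ| ^ (81 / 40 : ℝ) ≤ η → η ≤ |σ| ^ (161 / 80 : ℝ) →
      (∃ u, Gr (fun x => σ * ξ x) a E η u) ∧
      ∀ u, Gr (fun x => σ * ξ x) a E η u → ∀ q : Fin d → ℝ, ∑ i, q i ^ 2 ≤ K →
        ‖((η : ℝ) : ℂ) * ∑' x, ph (fun i => Real.sqrt (η * σ ^ 2) * q i) (x - a) *
            ((‖u x‖ ^ 2 : ℝ) : ℂ) -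
          (((GF (F0 d) (E : ℂ)).im / (1 + (∑ i, q i ^ 2) * ((GF (F1 d) (E : ℂ)).im /
            (GF (F0 d) (E : ℂ)).im ^ 2)) : ℝ) : ℂ)‖ ≤ |σ| ^ (1 / 200 : ℝ)

theorem main (d : ℕ) (hd : 3 ≤ d) (κ : ℝ) (hκ : 0 < κ) (hκ1 : κ ≤ 1) :
    (∃ m : ℝ, 0 < m ∧ ∀ E : ℝ, |E| ≤ 2 * d - κ → m ≤ (GF (F1 d) (E : ℂ)).im ∧
      (GF (F1 d) (E : ℂ)).im ≤ (GF (F0 d) (E : ℂ)).im) ∧
    ∀ K : ℝ, 0 ≤ K → ∃ s0 : ℝ, 0 < s0 ∧ ∀ σ : ℝ, 0 < |σ| → |σ| ≤ s0 →
      ∃ G : Set (Zd d → ℝ), MeasurableSet G ∧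
        1 - Real.exp (-|σ| ^ (-(1 / 1000) : ℝ)) ≤ (Pool.Agent.Y661.BG.Pg d).real G ∧
        ∀ ξ ∈ G, ProfAt d κ K σ ξ := by
  obtain ⟨h1, h2⟩ := finD Pool.Agent.W193.BK.ES.es
    (Pool.Agent.W261.BK.third Pool.Agent.W540.BK.fac)
    (Pool.Agent.W240.BK.fluct (Pool.Agent.W240.BK.var Pool.Agent.W193.BK.ES.es))
    Pool.Agent.W475.BK.inv Pool.Agent.W975.BK.sup
    (Pool.Agent.W465.BK.qb (Pool.Agent.W240.BK.two Pool.Agent.W918.BK.Osc.osc))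
    Pool.Agent.W475.BK.low Pool.Agent.W790.BK.ADM.adm Pool.Agent.W540.BK.fac
    Pool.Agent.W918.BK.Osc.osc d hd κ hκ hκ1
  refine ⟨h1, fun K hK => ?_⟩
  obtain ⟨c0, hc0, h3⟩ := h2 K hK
  refine ⟨c0, hc0, fun σ hσ hσ0 => ?_⟩
  obtain ⟨G, hG, hP, hL⟩ := h3 |σ| hσ hσ0
  have key : ∀ ξ' ξ : Zd d → ℝ, ξ' ∈ G → (∀ x, |σ| * ξ' x = σ * ξ x) → ProfAt d κ K σ ξ := by
    intro ξ' ξ hξ' hxx a ha E hE η hη1 hη2
    have hη0 : 0 < η := lt_of_lt_of_le (Real.rpow_pos_of_pos hσ _) hη1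
    refine ⟨?_, fun u hu q hq => ?_⟩
    · obtain ⟨u, hu⟩ := rs_exists_unb (fun x => -(σ * ξ x)) a (-E) η hη0
      exact ⟨_, rs_gr _ a E η u hu⟩
    · have h4 := hL ξ' hξ' a ha E hE η hη1 hη2 (fun x => -(starRingEnd ℂ) (u x)) (by
        simp only [hxx]
        exact gr_rs _ a E η u hu) q hq
      simp only [norm_neg, RCLike.norm_conj, sq_abs] at h4
      exact h4
  rcases le_or_gt 0 σ with h0 | h0
  · exact ⟨G, hG, hP, fun ξ hξ => key ξ ξ hξ fun x => by rw [abs_of_nonneg h0]⟩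
  · have hm : Measurable (fun (ξ : Zd d → ℝ) y => -ξ y) := by fun_prop
    refine ⟨(fun ξ y => -ξ y) ⁻¹' G, hm hG, ?_, fun ξ hξ => key _ ξ hξ fun x => by
      rw [abs_of_neg h0]; ring⟩
    have h1 : (Pool.Agent.Y661.BG.Pg d).real ((fun ξ y => -ξ y) ⁻¹' G) =
        (Pool.Agent.Y661.BG.Pg d).real G := by
      conv_rhs => rw [← Pool.Agent.Y661.BG.law_neg d]
      rw [map_measureReal_apply hm hG]
    rw [h1]
    exact hP

end Pool.Agent.Y661.GD
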