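import Pool.Agent.Y661.BG.Cut
import Pool.Agent.TH794.QE.FinA

/-! The resolvents of two potentials that agree in a large box; existence of the resolvent for an
unbounded potential. -/

set_option autoImplicit false
set_option linter.unusedSectionVars false

open scoped BigOperators Topology
open MeasureTheory Filter

namespace Pool.Agent.Y661.GD

open Pool.Agent.W788.MFP.Cut (φ φ_nonneg φ_le_one φ_one φ_zero)
open Pool.Agent.H4R2.LO (Zd)
open Pool.Agent.W788.LD.Spec (S symm summ_mul summ_shift)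
open Pool.Agent.TH794.QE (Rs rs_exists)
open Pool.Agent.Y661.BG

variable {d : ℕ}

/-- `‖v‖ ≤ η⁻¹ ‖(H - e - iη) v‖`, squared -/
theorem rs_bound (V : Zd d → ℝ) (e η : ℝ) (hη : 0 < η) (v g : Zd d → ℂ)
    (hv : Summable fun x => ‖v x‖ ^ 2) (hg : Summable fun x => ‖g x‖ ^ 2)
    (heq : ∀ x, -S v x + (V x : ℂ) * v x - ((e : ℂ) + (η : ℂ) * Complex.I) * v x = g x) :
    η ^ 2 * ∑' x, ‖v x‖ ^ 2 ≤ ∑' x, ‖g x‖ ^ 2 := by
  obtain ⟨s1, s2, e1⟩ := symm v v hv hv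
  have sg := summ_mul v g hv hg
  -- `⟨v, g⟩ = real - iη ‖v‖²`
  have n1 : ∀ x, ((‖v x‖ ^ 2 : ℝ) : ℂ) = (starRingEnd ℂ) (v x) * v x := fun x => by
    rw [← Complex.normSq_eq_norm_sq, Complex.normSq_eq_conj_mul_self]
  have sym : (∑' x, (starRingEnd ℂ) (v x) * S v x).im = 0 := by
    have h1 : (starRingEnd ℂ) (∑' x, (starRingEnd ℂ) (v x) * S v x) =
        ∑' x, (starRingEnd ℂ) (v x) * S v x := by
      rw [Complex.conj_tsum]
      conv_rhs => rw [e1]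
      refine tsum_congr fun x => ?_
      rw [map_mul, Complex.conj_conj, mul_comm]
    exact Complex.conj_eq_iff_im.1 h1
  have hpt : ∀ x, ((starRingEnd ℂ) (v x) * g x).im =
      -((starRingEnd ℂ) (v x) * S v x).im - η * ‖v x‖ ^ 2 := by
    intro x
    rw [← heq x]
    have h2 : (starRingEnd ℂ) (v x) * (-S v x + (V x : ℂ) * v x -
        ((e : ℂ) + (η : ℂ) * Complex.I) * v x) =
        -((starRingEnd ℂ) (v x) * S v x) + (((V x - e) * ‖v x‖ ^ 2 : ℝ) : ℂ) -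
          ((η * ‖v x‖ ^ 2 : ℝ) : ℂ) * Complex.I := by
      have h3 := n1 x
      push_cast at h3 ⊢
      rw [h3]
      ring
    rw [h2]
    simp only [Complex.sub_im, Complex.add_im, Complex.neg_im, Complex.ofReal_im,
      Complex.mul_im, Complex.ofReal_re, Complex.I_im, Complex.I_re]
    ring
  have him : (∑' x, (starRingEnd ℂ) (v x) * g x).im = -(η * ∑' x, ‖v x‖ ^ 2) := by
    have h1 : HasSum (fun x => ((starRingEnd ℂ) (v x) * g x).im)
        (∑' x, (starRingEnd ℂ) (v x) * g x).im := Complex.hasSum_im sg.hasSum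
    have h2 : HasSum (fun x => ((starRingEnd ℂ) (v x) * S v x).im)
        (∑' x, (starRingEnd ℂ) (v x) * S v x).im := Complex.hasSum_im s1.hasSum
    have h3 : HasSum (fun x => -((starRingEnd ℂ) (v x) * S v x).im - η * ‖v x‖ ^ 2)
        (-(∑' x, (starRingEnd ℂ) (v x) * S v x).im - η * ∑' x, ‖v x‖ ^ 2) :=
      h2.neg.sub (hv.hasSum.mul_left η)
    have h4 := h1.unique (h3.congr_fun (fun x => hpt x))
    rw [h4, sym]
    ring
  -- Cauchy-Schwarz
  obtain ⟨A, hA⟩ : ∃ A, A = ∑' x, ‖v x‖ ^ 2 := ⟨_, rfl⟩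
  obtain ⟨B, hB⟩ : ∃ B, B = ∑' x, ‖g x‖ ^ 2 := ⟨_, rfl⟩
  have hA0 : 0 ≤ A := by rw [hA]; exact tsum_nonneg fun x => by positivity
  have hB0 : 0 ≤ B := by rw [hB]; exact tsum_nonneg fun x => by positivity
  have hle : η * A ≤ η / 2 * A + 1 / (2 * η) * B := by
    have h1 : η * A ≤ ‖∑' x, (starRingEnd ℂ) (v x) * g x‖ := by
      have := Complex.abs_im_le_norm (∑' x, (starRingEnd ℂ) (v x) * g x)
      rw [him, ← hA, abs_neg, abs_of_nonneg (by positivity)] at this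
      exact this
    refine h1.trans ?_
    have h5 : ∀ x, ‖(starRingEnd ℂ) (v x) * g x‖ ≤ η / 2 * ‖v x‖ ^ 2 + 1 / (2 * η) * ‖g x‖ ^ 2 := by
      intro x
      rw [norm_mul, Complex.norm_conj]
      obtain ⟨p, hp⟩ : ∃ p, p = ‖v x‖ := ⟨_, rfl⟩
      obtain ⟨q, hq⟩ : ∃ q, q = ‖g x‖ := ⟨_, rfl⟩
      rw [← hp, ← hq]
      have h6 : η / 2 * p ^ 2 + 1 / (2 * η) * q ^ 2 - p * q = 1 / (2 * η) * (η * p - q) ^ 2 := by
        field_simp
        ring
      have h7 : 0 ≤ 1 / (2 * η) * (η * p - q) ^ 2 := by positivity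
      linarith
    have s5 : Summable fun x => η / 2 * ‖v x‖ ^ 2 + 1 / (2 * η) * ‖g x‖ ^ 2 :=
      (hv.mul_left _).add (hg.mul_left _)
    have s6 : Summable fun x => ‖(starRingEnd ℂ) (v x) * g x‖ :=
      Summable.of_nonneg_of_le (fun x => norm_nonneg _) h5 s5
    refine (norm_tsum_le_tsum_norm s6).trans ((s6.tsum_le_tsum h5 s5).trans (le_of_eq ?_))
    rw [Summable.tsum_add (hv.mul_left _) (hg.mul_left _), tsum_mul_left, tsum_mul_left, hA, hB]
  rw [← hA, ← hB]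
  have h8 : η / 2 * A ≤ 1 / (2 * η) * B := by linarith
  have h9 := mul_le_mul_of_nonneg_left h8 (show 0 ≤ 2 * η by positivity)
  have e2 : 2 * η * (η / 2 * A) = η ^ 2 * A := by ring
  have e3 : 2 * η * (1 / (2 * η) * B) = B := by field_simp
  linarith

/-- the resolvent is bounded -/
theorem rs_norm (V : Zd d → ℝ) (a : Zd d) (e η : ℝ) (hη : 0 < η) (u : Zd d → ℂ)
    (hu : Rs d V a e η u) : η ^ 2 * ∑' x, ‖u x‖ ^ 2 ≤ 1 := by
  have hfs : (fun x : Zd d => ‖(if x = a then (1 : ℂ) else 0)‖ ^ 2) =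
      fun x => if x = a then (1 : ℝ) else 0 := by
    funext x
    split_ifs <;> simp
  have h1 := rs_bound V e η hη u (fun x => if x = a then 1 else 0) hu.sq (by
    rw [hfs]
    exact (hasSum_ite_eq a (1 : ℝ)).summable) hu.eq
  rw [hfs, tsum_ite_eq] at h1
  exact h1

theorem S_cut (ℓ : ℝ) (u : Zd d → ℂ) (x : Zd d) :
    S (fun x => φ ℓ x • u x) x = φ ℓ x • S u x + rr ℓ u x := comm_eq ℓ u x

/-- comparison of the resolvents -/
theorem rs_cmp (V V' : Zd d → ℝ) (a : Zd d) (e η ℓ : ℝ) (hη : 0 < η) (hℓ : 0 < ℓ)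
    (ha : ‖a‖ ≤ ℓ) (hag : ∀ x : Zd d, ‖x‖ < 2 * ℓ → V x = V' x) (u u' : Zd d → ℂ)
    (hu : Rs d V a e η u) (hu' : Rs d V' a e η u') :
    (Summable fun x => ‖u x - u' x‖ ^ 2) ∧
    η ^ 4 * ∑' x, ‖u x - u' x‖ ^ 2 ≤ 4 * (2 * d / ℓ) ^ 2 := by
  have hr := rr_summ ℓ hℓ u hu.sq
  have hr' := rr_tsum ℓ hℓ u hu.sq
  have hc := cut_summ ℓ u hu.sq
  have hn := rs_norm V a e η hη u hu
  have hadd : ∀ p q : ℂ, ‖p - q‖ ^ 2 ≤ 2 * ‖p‖ ^ 2 + 2 * ‖q‖ ^ 2 := by
    intro p q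
    have h1 := norm_sub_le p q
    have h2 := norm_nonneg (p - q)
    nlinarith [sq_nonneg (‖p‖ - ‖q‖), norm_nonneg p, norm_nonneg q]
  -- the inner part
  have s1 : Summable fun x => ‖φ ℓ x • u x - u' x‖ ^ 2 :=
    Summable.of_nonneg_of_le (fun x => by positivity) (fun x => hadd _ _)
      ((hc.mul_left 2).add (hu'.sq.mul_left 2))
  have s2 : Summable fun x => ‖u x - φ ℓ x • u x‖ ^ 2 :=
    Summable.of_nonneg_of_le (fun x => by positivity) (fun x => hadd _ _)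
      ((hu.sq.mul_left 2).add (hc.mul_left 2))
  have hS : ∀ (p q : Zd d → ℂ) x, S (fun x => p x - q x) x = S p x - S q x := by
    intro p q x
    unfold S
    rw [← Finset.sum_sub_distrib]
    exact Finset.sum_congr rfl fun i _ => by ring
  have b1 := rs_bound V' e η hη (fun x => φ ℓ x • u x - u' x) (fun x => -rr ℓ u x) s1
    (by simpa only [norm_neg] using hr) (fun x => by
      rw [hS, S_cut]
      have h1 := hu.eq x
      have h2 := hu'.eq x
      simp only [Complex.real_smul] at *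
      by_cases hx : ‖x‖ < 2 * ℓ
      · rw [← hag x hx] at h2 ⊢
        by_cases hxa : x = a
        · have h3 : φ ℓ x = 1 := by rw [hxa]; exact φ_one ℓ hℓ a ha
          rw [h3]
          push_cast
          linear_combination h1 - h2
        · rw [if_neg hxa] at h1 h2
          linear_combination (φ ℓ x : ℂ) * h1 - h2
      · have h0 : φ ℓ x = 0 := φ_zero ℓ hℓ x (not_lt.1 hx)
        have hxa : x ≠ a := by
          intro h
          rw [h] at hx
          apply hx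
          linarith
        rw [if_neg hxa] at h2
        rw [h0]
        push_cast
        linear_combination -h2)
  have b2 := rs_bound V e η hη (fun x => u x - φ ℓ x • u x) (fun x => rr ℓ u x) s2 hr (fun x => by
      rw [hS, S_cut]
      have h1 := hu.eq x
      simp only [Complex.real_smul] at *
      by_cases hxa : x = a
      · have h3 : φ ℓ x = 1 := by rw [hxa]; exact φ_one ℓ hℓ a ha
        rw [h3]
        push_cast
        ring
      · rw [if_neg hxa] at h1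
        linear_combination (1 - (φ ℓ x : ℂ)) * h1)
  simp only [norm_neg] at b1
  obtain ⟨R, hR⟩ : ∃ R, R = ∑' x, ‖rr ℓ u x‖ ^ 2 := ⟨_, rfl⟩
  rw [← hR] at b1 b2 hr'
  have hpt : ∀ x, ‖u x - u' x‖ ^ 2 ≤ 2 * ‖u x - φ ℓ x • u x‖ ^ 2 + 2 * ‖φ ℓ x • u x - u' x‖ ^ 2 := by
    intro x
    have h1 : u x - u' x = (u x - φ ℓ x • u x) - -(φ ℓ x • u x - u' x) := by ring
    rw [h1]
    refine (hadd _ _).trans (le_of_eq ?_)
    rw [norm_neg]
  have s3 : Summable fun x => ‖u x - u' x‖ ^ 2 :=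
    Summable.of_nonneg_of_le (fun x => by positivity) hpt ((s2.mul_left 2).add (s1.mul_left 2))
  refine ⟨s3, ?_⟩
  have h4 : ∑' x, ‖u x - u' x‖ ^ 2 ≤ 2 * ∑' x, ‖u x - φ ℓ x • u x‖ ^ 2 +
      2 * ∑' x, ‖φ ℓ x • u x - u' x‖ ^ 2 := by
    refine (s3.tsum_le_tsum hpt ((s2.mul_left 2).add (s1.mul_left 2))).trans (le_of_eq ?_)
    rw [Summable.tsum_add (s2.mul_left 2) (s1.mul_left 2), tsum_mul_left, tsum_mul_left]
  have h5 : η ^ 2 * ∑' x, ‖u x - u' x‖ ^ 2 ≤ 4 * R := by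
    calc η ^ 2 * ∑' x, ‖u x - u' x‖ ^ 2 ≤ η ^ 2 * (2 * ∑' x, ‖u x - φ ℓ x • u x‖ ^ 2 +
      2 * ∑' x, ‖φ ℓ x • u x - u' x‖ ^ 2) := by gcongr
      _ = 2 * (η ^ 2 * ∑' x, ‖u x - φ ℓ x • u x‖ ^ 2) +
          2 * (η ^ 2 * ∑' x, ‖φ ℓ x • u x - u' x‖ ^ 2) := by ring
      _ ≤ 4 * R := by linarith
  calc η ^ 4 * ∑' x, ‖u x - u' x‖ ^ 2 = η ^ 2 * (η ^ 2 * ∑' x, ‖u x - u' x‖ ^ 2) := by ring
    _ ≤ η ^ 2 * (4 * ((2 * d / ℓ) ^ 2 * ∑' x, ‖u x‖ ^ 2)) := by
        have : 4 * R ≤ 4 * ((2 * d / ℓ) ^ 2 * ∑' x, ‖u x‖ ^ 2) := by linarith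
        exact mul_le_mul_of_nonneg_left (h5.trans this) (by positivity)
    _ = 4 * (2 * d / ℓ) ^ 2 * (η ^ 2 * ∑' x, ‖u x‖ ^ 2) := by ring
    _ ≤ 4 * (2 * d / ℓ) ^ 2 * 1 := by gcongr
    _ = _ := mul_one _

end Pool.Agent.Y661.GD
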