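import Pool.Agent.TH794.QD.Num8
import Pool.Agent.TH794.QD.Num10

/-! The numerical conditions when the bound of the law grows (after
`Pool.Agent.TH794.QE.NumA` and `Pool.Agent.TH794.HK.Prob8`). -/

set_option autoImplicit false

open Filter

namespace Pool.Agent.Y661.GD

open Pool.Agent.W788.BK.Num
open Pool.Agent.TH794.QD
open Pool.Agent.TH794.LL2 (hexle sqrt_ex)

theorem bconv (C y α : ℝ) (k j : ℕ) (X b : ℝ) (hb : b = Real.exp (1 / 1100 * y))
    (h : C * y ^ k * Real.exp (((j : ℝ) * (1 / 1100) + α) * y) ≤ X) :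
    C * b ^ j * y ^ k * Real.exp (α * y) ≤ X := by
  refine le_trans (le_of_eq ?_) h
  rw [hb, ex_pow, ← ex_mul]
  ring

theorem numK7G (A2 CQ : ℝ) (hCQ : 0 < CQ) (hA20 : 0 < A2) :
    ∀ᶠ y : ℝ in atTop, ∀ b : ℝ, b = Real.exp (1 / 1100 * y) → ∀ A1 : ℝ, A1 = A2 * y → ∀ (β a v2 Q s2 cnt N η δ g1 : ℝ), β = b * Real.exp (-1 * y) → 0 ≤ a →
    a ≤ A1 * y → 1 ≤ A1 * y → 0 ≤ v2 →
    v2 ≤ A1 * y * Real.exp (97 / 50 * y) → 0 ≤ Q →
    Q ≤ 8 * CQ * y ^ 2 * Real.exp (67 / 50 * y) → s2 ≤ β ^ 2 → 0 ≤ s2 →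
    0 < N → 1 ≤ cnt → cnt ≤ 2 * Real.exp (-(11 / 5) * y) * N →
    Real.exp (-(17 / 200) * y) ≤ η → Real.exp (-(81 / 40) * y) ≤ η * δ → 0 ≤ g1 → g1 ≤ A1 * y →
    β * a * (3 / η) ≤ 1 ∧ β * a ≤ η ∧ β ^ 2 * v2 ≤ 1 ∧
    4 * β ^ 3 * a * v2 * (3 / η) ^ 3 + s2 * (2 * β * (3 * Q) * Real.sqrt v2 * (3 / η) ^ 4) ≤
      Real.exp (-(17 / 50) * y) ∧
    4 * β ^ 3 * a * v2 / η ^ 3 + s2 * (2 * β * Q * Real.sqrt v2 / η ^ 4) ≤
      Real.exp (-(17 / 50) * y) ∧
    s2 * cnt ≤ Real.exp (-(1 / 10) * y) * (η ^ 2 * δ ^ 2) * N ∧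
    2 * β ^ 2 / η ^ 2 * (Q + a ^ 2 / η ^ 2) ≤ Real.exp (-(1 / 5) * y) ^ 2 ∧
    4 * β ^ 2 * (3 * Q) * (3 / η) ^ 6 * g1 ^ 2 ≤ Real.exp (-(37 / 500) * y) ^ 2 := by
  filter_upwards [eventually_ge_atTop 1,
    ev2 (3 * A2) (((1 : ℕ) : ℝ) * (1 / 1100) + -(183 / 200)) 0 2 (by norm_num),
    ev2 A2 (((1 : ℕ) : ℝ) * (1 / 1100) + -1) (-(17 / 200)) 2 (by norm_num),
    ev2 A2 (((2 : ℕ) : ℝ) * (1 / 1100) + -(3 / 50)) 0 2 (by norm_num),
    ev2 (216 * A2 ^ 2) (((3 : ℕ) : ℝ) * (1 / 1100) + -(161 / 200)) (-(17 / 50)) 4 (by norm_num),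
    ev2 (7776 * CQ * A2) (((3 : ℕ) : ℝ) * (1 / 1100) + -(7 / 20)) (-(17 / 50)) 4 (by norm_num),
    ev2 2 (((2 : ℕ) : ℝ) * (1 / 1100) + -(21 / 5)) (-(83 / 20)) 0 (by norm_num),
    ev2 (32 * CQ) (((2 : ℕ) : ℝ) * (1 / 1100) + -(49 / 100)) (-(2 / 5)) 2 (by norm_num),
    ev2 (4 * A2 ^ 2) (((2 : ℕ) : ℝ) * (1 / 1100) + -(83 / 50)) (-(2 / 5)) 4 (by norm_num),
    ev2 (69984 * CQ * A2 ^ 2) (((2 : ℕ) : ℝ) * (1 / 1100) + -(3 / 20)) (-(37 / 250)) 6
      (by norm_num)] with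
    y hy1 n1 n2 n3 n4 n5 n6 n7 n8 n9
  intro b hbe A1 hA1
  have hb : 0 < b := by rw [hbe]; positivity
  have hy10 : 0 < y := by linarith
  replace n1 := bconv _ _ _ 2 1 _ b hbe n1
  replace n2 := bconv _ _ _ 2 1 _ b hbe n2
  replace n3 := bconv _ _ _ 2 2 _ b hbe n3
  replace n4 := bconv _ _ _ 4 3 _ b hbe n4
  replace n5 := bconv _ _ _ 4 3 _ b hbe n5
  replace n6 := bconv _ _ _ 0 2 _ b hbe n6
  replace n7 := bconv _ _ _ 2 2 _ b hbe n7
  replace n8 := bconv _ _ _ 4 2 _ b hbe n8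
  replace n9 := bconv _ _ _ 6 2 _ b hbe n9
  have n7 : (32 * b ^ 2 * CQ) * y ^ 2 * Real.exp ((-(49 / 100)) * y) ≤
      Real.exp ((-(2 / 5)) * y) := by
    refine le_trans (mul_le_mul_of_nonneg_right ?_ (Real.exp_pos _).le) n7
    exact le_of_eq (by ring)
  have hA10 : 0 < A1 := by rw [hA1]; positivity
  have n1 : (3 * b * A1) * y ^ 1 * Real.exp ((-(183 / 200)) * y) ≤ Real.exp (0 * y) := by
    refine le_trans (mul_le_mul_of_nonneg_right ?_ (Real.exp_pos _).le) n1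
    rw [hA1]
    exact le_of_eq (by ring)
  have n2 : (b * A1) * y ^ 1 * Real.exp ((-1) * y) ≤ Real.exp ((-(17 / 200)) * y) := by
    refine le_trans (mul_le_mul_of_nonneg_right ?_ (Real.exp_pos _).le) n2
    rw [hA1]
    exact le_of_eq (by ring)
  have n3 : (b ^ 2 * A1) * y ^ 1 * Real.exp ((-(3 / 50)) * y) ≤ Real.exp (0 * y) := by
    refine le_trans (mul_le_mul_of_nonneg_right ?_ (Real.exp_pos _).le) n3
    rw [hA1]
    exact le_of_eq (by ring)
  have n4 : (216 * b ^ 3 * A1 ^ 2) * y ^ 2 * Real.exp ((-(161 / 200)) * y) ≤ Real.exp ((-(17 / 50)) * y) := by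
    refine le_trans (mul_le_mul_of_nonneg_right ?_ (Real.exp_pos _).le) n4
    rw [hA1]
    exact le_of_eq (by ring)
  have n5 : (7776 * b ^ 3 * CQ * A1) * y ^ 3 * Real.exp ((-(7 / 20)) * y) ≤ Real.exp ((-(17 / 50)) * y) := by
    refine le_trans (mul_le_mul_of_nonneg_right ?_ (Real.exp_pos _).le) n5
    rw [hA1]
    exact le_of_eq (by ring)
  have n8 : (4 * b ^ 2 * A1 ^ 2) * y ^ 2 * Real.exp ((-(83 / 50)) * y) ≤ Real.exp ((-(2 / 5)) * y) := by
    refine le_trans (mul_le_mul_of_nonneg_right ?_ (Real.exp_pos _).le) n8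
    rw [hA1]
    exact le_of_eq (by ring)
  have n9 : (69984 * b ^ 2 * CQ * A1 ^ 2) * y ^ 4 * Real.exp ((-(3 / 20)) * y) ≤ Real.exp ((-(37 / 250)) * y) := by
    refine le_trans (mul_le_mul_of_nonneg_right ?_ (Real.exp_pos _).le) n9
    rw [hA1]
    exact le_of_eq (by ring)
  simp only [pow_zero, mul_one, pow_one, zero_mul, Real.exp_zero] at n1 n2 n3 n6
  intro β a v2 Q s2 cnt N η δ g1 hββ ha0 ha1 hAy1 hv20 hv21 hQ0 hQ1 hs2β hs20 hN0 hcnt1 hcnt2 hη
    htηδ hg10 hg1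
  have hη0 : 0 < η := lt_of_lt_of_le (Real.exp_pos _) hη
  have hηinv : η⁻¹ ≤ Real.exp (17 / 200 * y) := by
    have h1 := inv_anti₀ (Real.exp_pos _) hη
    rw [ex_inv] at h1
    norm_num at h1 ⊢
    exact h1
  have hη3 : 3 / η ≤ 3 * Real.exp (17 / 200 * y) := by
    rw [div_eq_mul_inv]
    gcongr
  have hβ0 : 0 < β := by rw [hββ]; positivity
  have hsv : Real.sqrt v2 ≤ A1 * y * Real.exp (97 / 100 * y) := by
    rw [Real.sqrt_le_left (by positivity)]
    calc v2 ≤ A1 * y * Real.exp (97 / 50 * y) := hv21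
      _ ≤ (A1 * y) * (A1 * y) * Real.exp (97 / 50 * y) := by
          have : A1 * y * 1 ≤ (A1 * y) * (A1 * y) := by gcongr
          rw [mul_one] at this
          gcongr
      _ = (A1 * y * Real.exp (97 / 100 * y)) ^ 2 := by
          rw [mul_pow, ex_pow]
          norm_num
          ring
  have k4 : 4 * β ^ 3 * a * v2 * (3 / η) ^ 3 + s2 * (2 * β * (3 * Q) * Real.sqrt v2 *
      (3 / η) ^ 4) ≤ Real.exp (-(17 / 50) * y) := by
    have h1 : 4 * β ^ 3 * a * v2 * (3 / η) ^ 3 ≤ 1 / 2 * Real.exp (-(17 / 50) * y) := by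
      calc 4 * β ^ 3 * a * v2 * (3 / η) ^ 3 ≤
            4 * (b * Real.exp (-1 * y)) ^ 3 * (A1 * y) * (A1 * y * Real.exp (97 / 50 * y)) *
            (3 * Real.exp (17 / 200 * y)) ^ 3 := by
            rw [hββ]
            gcongr
        _ = 1 / 2 * (216 * b ^ 3 * A1 ^ 2 * y ^ 2 * (Real.exp (-1 * y) ^ 3 *
            Real.exp (97 / 50 * y) * Real.exp (17 / 200 * y) ^ 3)) := by ring
        _ = 1 / 2 * (216 * b ^ 3 * A1 ^ 2 * y ^ 2 * Real.exp (-(161 / 200) * y)) := by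
            rw [ex_pow, ex_pow, ex_mul, ex_mul]
            norm_num
        _ ≤ _ := by linarith
    have h2 : s2 * (2 * β * (3 * Q) * Real.sqrt v2 * (3 / η) ^ 4) ≤
        1 / 2 * Real.exp (-(17 / 50) * y) := by
      calc s2 * (2 * β * (3 * Q) * Real.sqrt v2 * (3 / η) ^ 4) ≤
            (b * Real.exp (-1 * y)) ^ 2 * (2 * (b * Real.exp (-1 * y)) *
            (3 * (8 * CQ * y ^ 2 * Real.exp (67 / 50 * y))) * (A1 * y * Real.exp (97 / 100 * y)) *
            (3 * Real.exp (17 / 200 * y)) ^ 4) := by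
            rw [hββ] at hs2β ⊢
            gcongr
        _ = 1 / 2 * (7776 * b ^ 3 * CQ * A1 * y ^ 3 * (Real.exp (-1 * y) ^ 2 * Real.exp (-1 * y) *
            Real.exp (67 / 50 * y) * Real.exp (97 / 100 * y) * Real.exp (17 / 200 * y) ^ 4)) := by
            ring
        _ = 1 / 2 * (7776 * b ^ 3 * CQ * A1 * y ^ 3 * Real.exp (-(7 / 20) * y)) := by
            rw [ex_pow, ex_pow, ex_mul, ex_mul, ex_mul, ex_mul]
            norm_num
        _ ≤ _ := by linarith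
    linarith
  refine ⟨?_, ?_, ?_, k4, ?_, ?_, ?_, ?_⟩
  · calc β * a * (3 / η) ≤ (b * Real.exp (-1 * y)) * (A1 * y) * (3 * Real.exp (17 / 200 * y)) := by
          rw [hββ]
          gcongr
      _ = 3 * b * A1 * y * (Real.exp (-1 * y) * Real.exp (17 / 200 * y)) := by ring
      _ ≤ 1 := by
          rw [ex_mul]
          norm_num
          norm_num at n1
          linarith
  · calc β * a ≤ (b * Real.exp (-1 * y)) * (A1 * y) := by
          rw [hββ]
          gcongr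
      _ = b * A1 * y * Real.exp (-1 * y) := by ring
      _ ≤ η := n2.trans hη
  · calc β ^ 2 * v2 ≤ (b * Real.exp (-1 * y)) ^ 2 * (A1 * y * Real.exp (97 / 50 * y)) := by
          rw [hββ]
          gcongr
      _ = b ^ 2 * A1 * y * (Real.exp (-1 * y) ^ 2 * Real.exp (97 / 50 * y)) := by ring
      _ = b ^ 2 * A1 * y * Real.exp (-(3 / 50) * y) := by
          rw [ex_pow, ex_mul]
          norm_num
      _ ≤ 1 := n3
  · refine le_trans (add_le_add ?_ ?_) k4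
    · rw [div_eq_mul_inv, ← inv_pow]
      apply mul_le_mul_of_nonneg_left _ (by positivity)
      apply pow_le_pow_left₀ (by positivity)
      rw [div_eq_mul_inv]
      have : 0 < η⁻¹ := by positivity
      linarith
    · rw [div_eq_mul_inv, ← inv_pow]
      apply mul_le_mul_of_nonneg_left _ hs20
      have h1 : (η⁻¹) ^ 4 ≤ (3 / η) ^ 4 := by
        apply pow_le_pow_left₀ (by positivity)
        rw [div_eq_mul_inv]
        have : 0 < η⁻¹ := by positivity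
        linarith
      have h2 : Q ≤ 3 * Q := by linarith
      gcongr
  · calc s2 * cnt ≤ (b * Real.exp (-1 * y)) ^ 2 * (2 * Real.exp (-(11 / 5) * y) * N) := by
          rw [hββ] at hs2β
          gcongr
      _ = 2 * b ^ 2 * (Real.exp (-1 * y) ^ 2 * Real.exp (-(11 / 5) * y)) * N := by ring
      _ = 2 * b ^ 2 * Real.exp (-(21 / 5) * y) * N := by
          rw [ex_pow, ex_mul]
          norm_num
      _ ≤ Real.exp (-(83 / 20) * y) * N := by gcongr
      _ ≤ Real.exp (-(1 / 10) * y) * (η ^ 2 * δ ^ 2) * N := by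
          have h9 : Real.exp (-(83 / 20) * y) ≤ Real.exp (-(1 / 10) * y) * (η ^ 2 * δ ^ 2) := by
            rw [← mul_pow]
            calc Real.exp (-(83 / 20) * y) =
                Real.exp (-(1 / 10) * y) * Real.exp (-(81 / 40) * y) ^ 2 := by
                  rw [ex_pow, ex_mul]
                  norm_num
              _ ≤ _ := by gcongr
          gcongr
  · have h1 : 2 * β ^ 2 * (η⁻¹) ^ 2 * Q ≤ 1 / 2 * Real.exp (-(2 / 5) * y) := by
      calc 2 * β ^ 2 * (η⁻¹) ^ 2 * Q ≤ 2 * (b * Real.exp (-1 * y)) ^ 2 *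
            (Real.exp (17 / 200 * y)) ^ 2 * (8 * CQ * y ^ 2 * Real.exp (67 / 50 * y)) := by
            rw [hββ]
            gcongr
        _ = 1 / 2 * (32 * b ^ 2 * CQ * y ^ 2 * (Real.exp (-1 * y) ^ 2 *
            Real.exp (17 / 200 * y) ^ 2 * Real.exp (67 / 50 * y))) := by ring
        _ = 1 / 2 * (32 * b ^ 2 * CQ * y ^ 2 * Real.exp (-(49 / 100) * y)) := by
            rw [ex_pow, ex_pow, ex_mul, ex_mul]
            norm_num
        _ ≤ _ := by linarith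
    have h2 : 2 * β ^ 2 * (η⁻¹) ^ 2 * (a ^ 2 * (η⁻¹) ^ 2) ≤ 1 / 2 * Real.exp (-(2 / 5) * y) := by
      calc 2 * β ^ 2 * (η⁻¹) ^ 2 * (a ^ 2 * (η⁻¹) ^ 2) ≤ 2 * (b * Real.exp (-1 * y)) ^ 2 *
            (Real.exp (17 / 200 * y)) ^ 2 * ((A1 * y) ^ 2 * (Real.exp (17 / 200 * y)) ^ 2) := by
            rw [hββ]
            gcongr
        _ = 1 / 2 * (4 * b ^ 2 * A1 ^ 2 * y ^ 2 * (Real.exp (-1 * y) ^ 2 *
            Real.exp (17 / 200 * y) ^ 2 * Real.exp (17 / 200 * y) ^ 2)) := by ring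
        _ = 1 / 2 * (4 * b ^ 2 * A1 ^ 2 * y ^ 2 * Real.exp (-(83 / 50) * y)) := by
            rw [ex_pow, ex_pow, ex_mul, ex_mul]
            norm_num
        _ ≤ _ := by linarith
    have h3 : Real.exp (-(1 / 5) * y) ^ 2 = Real.exp (-(2 / 5) * y) := by
      rw [ex_pow]
      norm_num
    rw [h3]
    calc 2 * β ^ 2 / η ^ 2 * (Q + a ^ 2 / η ^ 2) = 2 * β ^ 2 * (η⁻¹) ^ 2 * Q +
          2 * β ^ 2 * (η⁻¹) ^ 2 * (a ^ 2 * (η⁻¹) ^ 2) := by
          rw [inv_pow, div_eq_mul_inv, div_eq_mul_inv]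
          ring
      _ ≤ _ := by linarith
  · calc 4 * β ^ 2 * (3 * Q) * (3 / η) ^ 6 * g1 ^ 2 ≤ 4 * (b * Real.exp (-1 * y)) ^ 2 *
          (3 * (8 * CQ * y ^ 2 * Real.exp (67 / 50 * y))) * (3 * Real.exp (17 / 200 * y)) ^ 6 *
          (A1 * y) ^ 2 := by
          rw [hββ]
          gcongr
      _ = 69984 * b ^ 2 * CQ * A1 ^ 2 * y ^ 4 * (Real.exp (-1 * y) ^ 2 * Real.exp (67 / 50 * y) *
          Real.exp (17 / 200 * y) ^ 6) := by ring
      _ = 69984 * b ^ 2 * CQ * A1 ^ 2 * y ^ 4 * Real.exp (-(3 / 20) * y) := by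
          rw [ex_pow, ex_pow, ex_mul, ex_mul]
          norm_num
      _ ≤ Real.exp (-(37 / 250) * y) := n9
      _ = _ := by
          rw [ex_pow]
          norm_num

theorem prob8G (d : ℕ) (c A2 : ℝ) (hA20 : 0 < A2) :
    ∀ᶠ y : ℝ in atTop, ∀ b : ℝ, b = Real.exp (1 / 1100 * y) → ∀ A1 : ℝ, A1 = A2 * y → ∀ (Y ρ δ κ σ g1 τ β N cnt D1 D2 : ℝ) (L p M : ℕ),
    Y = Real.exp (y / 100) → ρ = Real.exp Y → (L : ℝ) ≤ Real.exp (7 * y) →
    δ = Real.exp (-(97 / 50) * y) → κ = Real.exp (-(23 / 1000) * y) →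
    σ = Real.exp (-1 * y) → 0 ≤ g1 → g1 ≤ A1 * y → p = ⌈Real.exp (1 / 80 * y)⌉₊ →
    N = (L : ℝ) ^ d → 0 < N → τ = Real.exp (-(209 / 100) * y) → β = b * Real.exp (-1 * y) →
    1 ≤ cnt → cnt ≤ 2 * Real.exp (-(11 / 5) * y) * N →
    D1 = Real.exp (-(37 / 500) * y) → D2 = Real.exp (-(1 / 5) * y) →
    (2 * M + 1 : ℝ) ≤ (6 * d + 5) * Real.exp (10 * y) →
    (3 * ρ) ^ d * ((8 * d / δ) * ((8 * p * g1 * c ^ 2 * σ ^ 2 / (δ * κ ^ 2)) ^ p *
      (L : ℝ) ^ d) + (2 * N * Real.exp (-(τ ^ 2 * N / (2 * β ^ 2 * cnt))) +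
      (2 * M + 1) * (2 * Real.exp (1 / 2 - 1 / Real.sqrt (2 * D2)) +
        N * (8 * Real.exp (-(Real.exp (-(1 / 50) * y) / (2 * D1))))))) ≤
      Real.exp (-Y) := by
  filter_upwards [eventually_ge_atTop 1,
    ev2 (48 * A2 * c ^ 2) (-(3 / 2000)) 0 2 (by norm_num),
    ev4 (12 * d + 12) 1 (1 / 80) (by norm_num) (by norm_num),
    ev4 (12 * d + 12) (1 / 4) (1 / 60) (by norm_num) (by norm_num),
    ev4 (24 * d + 24) (1 / 2) (1 / 10) (by norm_num) (by norm_num),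
    ev4 (32 * d + 24) (1 / 2) (27 / 500) (by norm_num) (by norm_num)] with
    y hy1 m1 m2 m3 m4 m5
  intro b hbe A1 hA1
  have hb : 0 < b := by rw [hbe]; positivity
  have hy10 : 0 < y := by linarith
  replace m3 : (12 * d + 12) * (Real.exp (y / 100) + y + 1) ≤
      1 / (4 * b ^ 2) * Real.exp (1 / 50 * y) := by
    refine m3.trans ?_
    rw [hbe, one_div (4 * Real.exp (1 / 1100 * y) ^ 2), mul_inv, ex_pow, ex_inv, mul_assoc, ex_mul,
      one_div]
    apply mul_le_mul_of_nonneg_left _ (by norm_num)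
    apply Real.exp_le_exp.2
    have : (1 / 60 : ℝ) ≤ -(((2 : ℕ) : ℝ) * (1 / 1100)) + 1 / 50 := by norm_num
    exact mul_le_mul_of_nonneg_right this hy10.le
  have hA10 : 0 < A1 := by rw [hA1]; positivity
  have m1 : (48 * A1 * c ^ 2) * y ^ 1 * Real.exp ((-(3 / 2000)) * y) ≤ Real.exp (0 * y) := by
    refine le_trans (mul_le_mul_of_nonneg_right ?_ (Real.exp_pos _).le) m1
    rw [hA1]
    exact le_of_eq (by ring)
  simp only [pow_one, zero_mul, Real.exp_zero, one_mul] at m1 m2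
  intro Y ρ δ κ σ g1 τ β N cnt D1 D2 L p M hY hρ hL hδ hκ hσ hg10 hg1 hp hNL hN0 hτ hβ hcnt1
    hcnt2 hD1 hD2 hM2
  obtain ⟨f1, f2⟩ := fac d y Y ρ L hρ hL
  have hY0 : 0 < Y := by rw [hY]; positivity
  have hdY : 0 ≤ d * Y := by positivity
  have hdy : 0 ≤ d * y := by positivity
  have hd0 : (0 : ℝ) ≤ d := Nat.cast_nonneg d
  have hρ0 : 0 < ρ := by rw [hρ]; positivity
  have h3ρ0 : 0 ≤ (3 * ρ) ^ d := by positivity
  have hδ0 : 0 < δ := by rw [hδ]; positivity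
  have hκ0 : 0 < κ := by rw [hκ]; positivity
  have hβ0 : 0 < β := by rw [hβ]; positivity
  have hδinv : δ⁻¹ = Real.exp (97 / 50 * y) := by
    rw [hδ, ex_inv]
    norm_num
  have hκinv : κ⁻¹ = Real.exp (23 / 1000 * y) := by
    rw [hκ, ex_inv]
    norm_num
  rw [← hY] at m2 m3 m4 m5
  have he1 := Real.exp_one_gt_d9
  have h2e : (2 : ℝ) ≤ Real.exp 1 := by linarith
  have h4e : (4 : ℝ) ≤ Real.exp 2 := by
    have : Real.exp 2 = Real.exp 1 * Real.exp 1 := by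
      rw [← Real.exp_add]
      norm_num
    rw [this]
    nlinarith
  -- first term
  have t1 : (3 * ρ) ^ d * ((8 * d / δ) * ((8 * p * g1 * c ^ 2 * σ ^ 2 / (δ * κ ^ 2)) ^ p *
      (L : ℝ) ^ d)) ≤ Real.exp (-Y - 2) := by
    obtain ⟨X, hX⟩ : ∃ X : ℝ, X = 8 * p * g1 * c ^ 2 * σ ^ 2 / (δ * κ ^ 2) := ⟨_, rfl⟩
    rw [← hX]
    have hX0 : 0 ≤ X := by rw [hX]; positivity
    have hp1 : Real.exp (1 / 80 * y) ≤ p := by
      rw [hp]
      exact Nat.le_ceil _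
    have hp2 : (p : ℝ) ≤ 2 * Real.exp (1 / 80 * y) := by
      have h1 := Nat.ceil_lt_add_one (show 0 ≤ Real.exp (1 / 80 * y) by positivity)
      rw [← hp] at h1
      have h2 : (1 : ℝ) ≤ Real.exp (1 / 80 * y) := Real.one_le_exp (by linarith)
      linarith
    have hX1 : X ≤ 1 / 3 := by
      calc X = 8 * p * g1 * c ^ 2 * σ ^ 2 * (δ⁻¹ * κ⁻¹ ^ 2) := by
            rw [hX, div_eq_mul_inv, mul_inv, inv_pow]
        _ ≤ 8 * (2 * Real.exp (1 / 80 * y)) * (A1 * y) * c ^ 2 * Real.exp (-1 * y) ^ 2 *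
            (Real.exp (97 / 50 * y) * Real.exp (23 / 1000 * y) ^ 2) := by
            rw [hδinv, hκinv, hσ]
            gcongr
        _ = 1 / 3 * (48 * A1 * c ^ 2 * y * (Real.exp (1 / 80 * y) * Real.exp (-1 * y) ^ 2 *
            (Real.exp (97 / 50 * y) * Real.exp (23 / 1000 * y) ^ 2))) := by ring
        _ = 1 / 3 * (48 * A1 * c ^ 2 * y * Real.exp (-(3 / 2000) * y)) := by
            rw [ex_pow, ex_pow, ex_mul, ex_mul, ex_mul]
            norm_num
        _ ≤ 1 / 3 := by linarith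
    have hX2 : X ≤ Real.exp (-1) := by
      have h1 := Real.exp_one_lt_three
      have h2 : (1 : ℝ) / 3 ≤ (Real.exp 1)⁻¹ := by
        rw [one_div]
        exact inv_anti₀ (Real.exp_pos _) h1.le
      rw [Real.exp_neg]
      linarith
    have hXp : X ^ p ≤ Real.exp (-Real.exp (1 / 80 * y)) := by
      calc X ^ p ≤ (Real.exp (-1)) ^ p := pow_le_pow_left₀ hX0 hX2 p
        _ = Real.exp (-(p : ℝ)) := by
          rw [← Real.exp_nat_mul]
          congr 1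
          ring
        _ ≤ _ := Real.exp_le_exp.2 (neg_le_neg hp1)
    have h8 : 8 * d / δ ≤ Real.exp (8 * d) * Real.exp (97 / 50 * y) := by
      rw [div_eq_mul_inv, hδinv]
      have := Real.add_one_le_exp (8 * (d : ℝ))
      have h9 : 8 * (d : ℝ) ≤ Real.exp (8 * d) := by linarith
      gcongr
    calc (3 * ρ) ^ d * ((8 * d / δ) * (X ^ p * (L : ℝ) ^ d)) ≤
        Real.exp (d * (2 + Y)) * ((Real.exp (8 * d) * Real.exp (97 / 50 * y)) *
          (Real.exp (-Real.exp (1 / 80 * y)) * Real.exp (7 * d * y))) := by gcongr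
      _ = Real.exp (d * (2 + Y) + ((8 * d + 97 / 50 * y) +
          (-Real.exp (1 / 80 * y) + 7 * d * y))) := by
          rw [← Real.exp_add, ← Real.exp_add, ← Real.exp_add, ← Real.exp_add]
      _ ≤ Real.exp (-Y - 2) := by
          apply Real.exp_le_exp.2
          clear hX hX0 hX1 hX2 hXp h8 hp1 hp2 f1 f2 h3ρ0
          linarith
  -- second term
  have t2 : (3 * ρ) ^ d * (2 * N * Real.exp (-(τ ^ 2 * N / (2 * β ^ 2 * cnt)))) ≤
      Real.exp (-Y - 2) := by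
    have h1 : 1 / (4 * b ^ 2) * Real.exp (1 / 50 * y) ≤ τ ^ 2 * N / (2 * β ^ 2 * cnt) := by
      rw [le_div_iff₀ (by positivity)]
      calc 1 / (4 * b ^ 2) * Real.exp (1 / 50 * y) * (2 * β ^ 2 * cnt) ≤
          1 / (4 * b ^ 2) * Real.exp (1 / 50 * y) * (2 * (b * Real.exp (-1 * y)) ^ 2 *
            (2 * Real.exp (-(11 / 5) * y) * N)) := by
            rw [hβ]
            gcongr
        _ = (Real.exp (1 / 50 * y) * Real.exp (-1 * y) ^ 2 * Real.exp (-(11 / 5) * y)) * N := by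
            field_simp
            ring
        _ = τ ^ 2 * N := by
            rw [hτ, ex_pow, ex_pow, ex_mul, ex_mul]
            norm_num
        _ ≤ _ := le_rfl
    have h2 : N ≤ Real.exp (7 * d * y) := by
      rw [hNL]
      exact f2
    calc (3 * ρ) ^ d * (2 * N * Real.exp (-(τ ^ 2 * N / (2 * β ^ 2 * cnt)))) ≤
        Real.exp (d * (2 + Y)) * (Real.exp 1 * Real.exp (7 * d * y) *
          Real.exp (-(1 / (4 * b ^ 2) * Real.exp (1 / 50 * y)))) := by gcongr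
      _ = Real.exp (d * (2 + Y) + ((1 + 7 * d * y) +
          (-(1 / (4 * b ^ 2) * Real.exp (1 / 50 * y))))) := by
          rw [← Real.exp_add, ← Real.exp_add, ← Real.exp_add]
      _ ≤ Real.exp (-Y - 2) := by
          apply Real.exp_le_exp.2
          clear f1 f2 h3ρ0 h2 hcnt1 hcnt2 hN0 hNL
          linarith
  have hM3 : (2 * M + 1 : ℝ) ≤ Real.exp (6 * d + 5) * Real.exp (10 * y) := by
    have := Real.add_one_le_exp (6 * (d : ℝ) + 5)
    refine hM2.trans (mul_le_mul_of_nonneg_right (by linarith) (Real.exp_pos _).le)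
  have hM0 : (0 : ℝ) ≤ 2 * M + 1 := by positivity
  -- third term
  have t3 : (3 * ρ) ^ d * ((2 * M + 1) * (2 * Real.exp (1 / 2 - 1 / Real.sqrt (2 * D2)))) ≤
      Real.exp (-Y - 2) := by
    have h1 : 1 / 2 * Real.exp (1 / 10 * y) ≤ 1 / Real.sqrt (2 * D2) := by
      have h4 : Real.sqrt (2 * D2) ≤ 2 * Real.exp (-(1 / 10) * y) := by
        rw [Real.sqrt_le_left (by positivity), mul_pow, ex_pow, hD2]
        have : 0 < Real.exp (-(1 / 5) * y) := by positivity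
        norm_num
        norm_num at this
        linarith
      have h5 : 0 < Real.sqrt (2 * D2) := Real.sqrt_pos.2 (by rw [hD2]; positivity)
      rw [le_div_iff₀ h5]
      calc 1 / 2 * Real.exp (1 / 10 * y) * Real.sqrt (2 * D2) ≤
          1 / 2 * Real.exp (1 / 10 * y) * (2 * Real.exp (-(1 / 10) * y)) := by gcongr
        _ = Real.exp (1 / 10 * y) * Real.exp (-(1 / 10) * y) := by ring
        _ = 1 := by
          rw [ex_mul]
          norm_num
    calc (3 * ρ) ^ d * ((2 * M + 1) * (2 * Real.exp (1 / 2 - 1 / Real.sqrt (2 * D2)))) ≤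
        Real.exp (d * (2 + Y)) * ((Real.exp (6 * d + 5) * Real.exp (10 * y)) *
          (Real.exp 1 * Real.exp (1 / 2 - 1 / 2 * Real.exp (1 / 10 * y)))) := by gcongr
      _ = Real.exp (d * (2 + Y) + ((6 * d + 5 + 10 * y) +
          (1 + (1 / 2 - 1 / 2 * Real.exp (1 / 10 * y))))) := by
          rw [← Real.exp_add, ← Real.exp_add, ← Real.exp_add, ← Real.exp_add]
      _ ≤ Real.exp (-Y - 2) := by
          apply Real.exp_le_exp.2
          clear f1 f2 h3ρ0 hM2 hM3 hM0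
          linarith
  -- fourth term
  have t4 : (3 * ρ) ^ d * ((2 * M + 1) * (N * (8 * Real.exp (-(Real.exp (-(1 / 50) * y) /
      (2 * D1)))))) ≤ Real.exp (-Y - 2) := by
    have h1 : 1 / 2 * Real.exp (27 / 500 * y) = Real.exp (-(1 / 50) * y) / (2 * D1) := by
      have hD1i : D1⁻¹ = Real.exp (37 / 500 * y) := by
        rw [hD1, ex_inv]
        norm_num
      have e1 : Real.exp (27 / 500 * y) = Real.exp (-(1 / 50) * y) * Real.exp (37 / 500 * y) := by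
        rw [ex_mul]
        norm_num
      rw [e1, ← hD1i]
      field_simp
    have h2 : N ≤ Real.exp (7 * d * y) := by
      rw [hNL]
      exact f2
    have h8e : (8 : ℝ) ≤ Real.exp 3 := by
      have : Real.exp 3 = Real.exp 2 * Real.exp 1 := by
        rw [← Real.exp_add]
        norm_num
      rw [this]
      nlinarith
    rw [← h1]
    calc (3 * ρ) ^ d * ((2 * M + 1) * (N * (8 * Real.exp (-(1 / 2 * Real.exp (27 / 500 * y)))))) ≤
        Real.exp (d * (2 + Y)) * ((Real.exp (6 * d + 5) * Real.exp (10 * y)) *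
          (Real.exp (7 * d * y) * (Real.exp 3 * Real.exp (-(1 / 2 *
            Real.exp (27 / 500 * y)))))) := by gcongr
      _ = Real.exp (d * (2 + Y) + ((6 * d + 5 + 10 * y) +
          (7 * d * y + (3 + (-(1 / 2 * Real.exp (27 / 500 * y))))))) := by
          rw [← Real.exp_add, ← Real.exp_add, ← Real.exp_add, ← Real.exp_add, ← Real.exp_add]
      _ ≤ Real.exp (-Y - 2) := by
          apply Real.exp_le_exp.2
          clear f1 f2 h3ρ0 hM2 hM3 hM0 h2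
          linarith
  have h5 : Real.exp (-Y) = Real.exp 2 * Real.exp (-Y - 2) := by
    rw [← Real.exp_add]
    congr 1
    ring
  have h6 : 4 * Real.exp (-Y - 2) ≤ Real.exp (-Y) := by
    rw [h5]
    gcongr
  have h7 : (3 * ρ) ^ d * ((8 * d / δ) * ((8 * p * g1 * c ^ 2 * σ ^ 2 / (δ * κ ^ 2)) ^ p *
      (L : ℝ) ^ d) + (2 * N * Real.exp (-(τ ^ 2 * N / (2 * β ^ 2 * cnt))) +
      (2 * M + 1) * (2 * Real.exp (1 / 2 - 1 / Real.sqrt (2 * D2)) +
        N * (8 * Real.exp (-(Real.exp (-(1 / 50) * y) / (2 * D1))))))) =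
      (3 * ρ) ^ d * ((8 * d / δ) * ((8 * p * g1 * c ^ 2 * σ ^ 2 / (δ * κ ^ 2)) ^ p *
      (L : ℝ) ^ d)) + (3 * ρ) ^ d * (2 * N * Real.exp (-(τ ^ 2 * N / (2 * β ^ 2 * cnt)))) +
      (3 * ρ) ^ d * ((2 * M + 1) * (2 * Real.exp (1 / 2 - 1 / Real.sqrt (2 * D2)))) +
      (3 * ρ) ^ d * ((2 * M + 1) * (N * (8 * Real.exp (-(Real.exp (-(1 / 50) * y) /
      (2 * D1)))))) := by ring
  rw [h7]
  linarith

end Pool.Agent.Y661.GD
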