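import Pool.Agent.Y661.GD.Cmp

/-! Existence of the resolvent for an unbounded potential. -/

set_option autoImplicit false
set_option linter.unusedSectionVars false

open scoped BigOperators Topology
open MeasureTheory Filter

namespace Pool.Agent.Y661.GD

open Pool.Agent.H4R2.LO (Zd)
open Pool.Agent.W788.LD.Spec (S)
open Pool.Agent.TH794.QE (Rs rs_exists)

variable {d : ℕ}

theorem rs_exists_unb (V : Zd d → ℝ) (a : Zd d) (e η : ℝ) (hη : 0 < η) :
    ∃ u : Zd d → ℂ, Rs d V a e η u := by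
  have h0 : ∀ n : ℕ, ∃ u : Zd d → ℂ, Rs d (fun x => max (-(n : ℝ)) (min n (V x))) a e η u := by
    intro n
    refine rs_exists _ n (fun x => ?_) a e η hη
    have hn : (0 : ℝ) ≤ n := Nat.cast_nonneg n
    rw [abs_le]
    exact ⟨le_max_left _ _, max_le (by linarith) (min_le_left _ _)⟩
  choose w hw using h0
  have hb : ∀ n, ∑' x, ‖w n x‖ ^ 2 ≤ (η⁻¹) ^ 2 := by
    intro n
    have h1 := rs_norm _ a e η hη (w n) (hw n)
    have h2 : (η⁻¹) ^ 2 * (η ^ 2 * ∑' x, ‖w n x‖ ^ 2) ≤ (η⁻¹) ^ 2 * 1 := by gcongr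
    have h3 : (η⁻¹) ^ 2 * (η ^ 2 * ∑' x, ‖w n x‖ ^ 2) = ∑' x, ‖w n x‖ ^ 2 := by
      field_simp
    linarith
  have hpt : ∀ n x, ‖w n x‖ ≤ η⁻¹ := by
    intro n x
    have h1 : ‖w n x‖ ^ 2 ≤ ∑' x, ‖w n x‖ ^ 2 := (hw n).sq.le_tsum x fun y _ => by positivity
    exact le_of_sq_le_sq (h1.trans (hb n)) (by positivity)
  have hK : IsCompact (Set.pi Set.univ fun _ : Zd d => Metric.closedBall (0 : ℂ) η⁻¹) :=
    isCompact_univ_pi fun _ => isCompact_closedBall _ _
  obtain ⟨u, -, ψ, hψ, hlim⟩ := hK.tendsto_subseq (x := w) fun n => by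
    rw [Set.mem_univ_pi]
    intro x
    rw [mem_closedBall_zero_iff]
    exact hpt n x
  have hl : ∀ x, Tendsto (fun n => w (ψ n) x) atTop (𝓝 (u x)) := fun x =>
    (tendsto_pi_nhds.1 hlim) x
  refine ⟨u, ?_, ?_⟩
  · refine summable_of_sum_le (c := (η⁻¹) ^ 2) (fun x => by positivity) fun F => ?_
    have h1 : Tendsto (fun n => ∑ x ∈ F, ‖w (ψ n) x‖ ^ 2) atTop (𝓝 (∑ x ∈ F, ‖u x‖ ^ 2)) :=
      tendsto_finset_sum _ fun x _ => ((hl x).norm).pow 2
    refine le_of_tendsto h1 (Eventually.of_forall fun n => ?_)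
    exact ((hw (ψ n)).sq.sum_le_tsum F fun x _ => by positivity).trans (hb _)
  · intro x
    have h1 : Tendsto (fun n => -S (w (ψ n)) x + (V x : ℂ) * w (ψ n) x -
        ((e : ℂ) + (η : ℂ) * Complex.I) * w (ψ n) x) atTop
        (𝓝 (-S u x + (V x : ℂ) * u x - ((e : ℂ) + (η : ℂ) * Complex.I) * u x)) := by
      have h2 : Tendsto (fun n => S (w (ψ n)) x) atTop (𝓝 (S u x)) := by
        unfold S
        exact tendsto_finset_sum _ fun i _ => (hl _).add (hl _)
      exact (h2.neg.add ((hl x).const_mul _)).sub ((hl x).const_mul _)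
    refine tendsto_nhds_unique h1 (tendsto_const_nhds.congr' ?_)
    obtain ⟨N, hN⟩ := exists_nat_ge |V x|
    filter_upwards [eventually_ge_atTop N] with n hn
    have h3 := (hw (ψ n)).eq x
    have h4 : |V x| ≤ (ψ n : ℝ) := by
      refine hN.trans ?_
      exact_mod_cast hn.trans (hψ.id_le n)
    obtain ⟨h5, h6⟩ := abs_le.1 h4
    have h7 : max (-(ψ n : ℝ)) (min (ψ n : ℝ) (V x)) = V x := by
      rw [min_eq_right h6, max_eq_right h5]
    simp only [h7] at h3
    exact h3.symm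

end Pool.Agent.Y661.GD
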