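import Pool.Agent.TH794.HK.FinK
import Pool.Agent.Y661.GD.Cmp

/-! Comparison of the characteristic functions. -/

set_option autoImplicit false
set_option linter.unusedSectionVars false

open scoped BigOperators Topology
open MeasureTheory Filter Set

namespace Pool.Agent.Y661.GD

open Pool.Agent.TH794.HK
open Pool.Agent.H4R2.LO (Zd)
open Pool.Agent.TH794.QE (Rs)

/-- the dependence of the profile on the scales -/
theorem Tg_cmp (G G1 x x' : ℝ) (hG : 0 < G) (hG1 : 0 ≤ G1) (h : G1 ≤ G) (hx : 0 ≤ x)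
    (hx' : 0 ≤ x') :
    |G / (1 + x * (G1 / G ^ 2)) - G / (1 + x' * (G1 / G ^ 2))| ≤ |x - x'| := by
  obtain ⟨q, hq⟩ : ∃ q, q = G1 / G ^ 2 := ⟨_, rfl⟩
  have hq0 : 0 ≤ q := by rw [hq]; positivity
  have hGq : G * q ≤ 1 := by
    rw [hq]
    have e1 : G * (G1 / G ^ 2) = G1 / G := by field_simp
    rw [e1, div_le_one hG]
    exact h
  rw [← hq]
  have a1 : 1 ≤ 1 + x * q := by
    have := mul_nonneg hx hq0
    linarith
  have a2 : 1 ≤ 1 + x' * q := by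
    have := mul_nonneg hx' hq0
    linarith
  have e1 : G / (1 + x * q) - G / (1 + x' * q) =
      -((G * q) * (x - x') / ((1 + x * q) * (1 + x' * q))) := by
    have : 1 + x * q ≠ 0 := by positivity
    have : 1 + x' * q ≠ 0 := by positivity
    field_simp
    ring
  have e2 : |(1 + x * q) * (1 + x' * q)| = (1 + x * q) * (1 + x' * q) :=
    abs_of_pos (by positivity)
  have e3 : |G * q| = G * q := abs_of_nonneg (by positivity)
  rw [e1, abs_neg, abs_div, abs_mul, e2, e3]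
  have h1 : 0 ≤ |x - x'| := abs_nonneg _
  calc (G * q) * |x - x'| / ((1 + x * q) * (1 + x' * q)) ≤ (G * q) * |x - x'| := by
        apply div_le_self (by positivity)
        exact one_le_mul_of_one_le_of_one_le a1 a2
    _ ≤ 1 * |x - x'| := by gcongr
    _ = _ := one_mul _

variable {d : ℕ}

/-- comparison of the characteristic functions of two resolvents -/
theorem ch_cmp (V V' : Zd d → ℝ) (a : Zd d) (e η ℓ : ℝ) (hη : 0 < η) (hℓ : 0 < ℓ)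
    (ha : ‖a‖ ≤ ℓ) (hag : ∀ x : Zd d, ‖x‖ < 2 * ℓ → V x = V' x) (u u' : Zd d → ℂ)
    (hu : Rs d V a e η u) (hu' : Rs d V' a e η u') (hd : 0 < (d : ℝ)) (p : Fin d → ℝ) :
    ‖(η : ℂ) * ∑' x, ph p (x - a) * ((‖u x‖ ^ 2 : ℝ) : ℂ) -
      (η : ℂ) * ∑' x, ph p (x - a) * ((‖u' x‖ ^ 2 : ℝ) : ℂ)‖ ≤ 10 * d / (ℓ * η ^ 2) := by
  obtain ⟨s1, h1⟩ := rs_cmp V V' a e η ℓ hη hℓ ha hag u u' hu hu'
  have n1 := rs_norm V a e η hη u hu
  have n2 := rs_norm V' a e η hη u' hu'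
  have hs : ∀ w : Zd d → ℂ, (Summable fun x => ‖w x‖ ^ 2) →
      Summable fun x => ph p (x - a) * ((‖w x‖ ^ 2 : ℝ) : ℂ) := by
    intro w hw
    refine Summable.of_norm ?_
    refine hw.congr fun x => ?_
    rw [norm_mul, ph_norm, one_mul, Complex.norm_real, Real.norm_eq_abs,
      abs_of_nonneg (by positivity)]
  rw [← mul_sub, ← (hs u hu.sq).tsum_sub (hs u' hu'.sq), norm_mul, Complex.norm_real,
    Real.norm_eq_abs, abs_of_pos hη]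
  obtain ⟨r, hr⟩ : ∃ r, r = 4 * d / ℓ := ⟨_, rfl⟩
  have hr0 : 0 < r := by rw [hr]; positivity
  obtain ⟨ε, hε⟩ : ∃ ε, ε = r / η := ⟨_, rfl⟩
  have hε0 : 0 < ε := by rw [hε]; positivity
  have hpt : ∀ x, ‖ph p (x - a) * ((‖u x‖ ^ 2 : ℝ) : ℂ) - ph p (x - a) * ((‖u' x‖ ^ 2 : ℝ) : ℂ)‖ ≤
      1 / (2 * ε) * ‖u x - u' x‖ ^ 2 + (ε * ‖u x‖ ^ 2 + ε * ‖u' x‖ ^ 2) := by
    intro x
    rw [← mul_sub, norm_mul, ph_norm, one_mul, ← Complex.ofReal_sub, Complex.norm_real,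
      Real.norm_eq_abs]
    obtain ⟨A, hA⟩ : ∃ A, A = ‖u x‖ := ⟨_, rfl⟩
    obtain ⟨B, hB⟩ : ∃ B, B = ‖u' x‖ := ⟨_, rfl⟩
    obtain ⟨D, hD⟩ : ∃ D, D = ‖u x - u' x‖ := ⟨_, rfl⟩
    have hA0 : 0 ≤ A := by rw [hA]; exact norm_nonneg _
    have hB0 : 0 ≤ B := by rw [hB]; exact norm_nonneg _
    have hAB : |A - B| ≤ D := by
      rw [hA, hB, hD]
      exact abs_norm_sub_norm_le _ _
    rw [← hA, ← hB, ← hD]
    have e1 : A ^ 2 - B ^ 2 = (A - B) * (A + B) := by ring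
    rw [e1, abs_mul, abs_of_nonneg (show 0 ≤ A + B by linarith)]
    have h2 : |A - B| * (A + B) ≤ D * (A + B) := by gcongr
    have h3 : 1 / (2 * ε) * D ^ 2 + ε / 2 * (A + B) ^ 2 - D * (A + B) =
        1 / (2 * ε) * (D - ε * (A + B)) ^ 2 := by
      field_simp
      ring
    have h4 : 0 ≤ 1 / (2 * ε) * (D - ε * (A + B)) ^ 2 := by positivity
    have h5 : ε / 2 * (A + B) ^ 2 ≤ ε * A ^ 2 + ε * B ^ 2 := by
      have : 0 ≤ ε / 2 * (A - B) ^ 2 := by positivity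
      nlinarith
    linarith
  have s2 : Summable fun x => 1 / (2 * ε) * ‖u x - u' x‖ ^ 2 +
      (ε * ‖u x‖ ^ 2 + ε * ‖u' x‖ ^ 2) :=
    (s1.mul_left _).add ((hu.sq.mul_left _).add (hu'.sq.mul_left _))
  have s3 : Summable fun x => ‖ph p (x - a) * ((‖u x‖ ^ 2 : ℝ) : ℂ) -
      ph p (x - a) * ((‖u' x‖ ^ 2 : ℝ) : ℂ)‖ :=
    Summable.of_nonneg_of_le (fun x => norm_nonneg _) hpt s2
  have h6 : ‖∑' x, (ph p (x - a) * ((‖u x‖ ^ 2 : ℝ) : ℂ) -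
      ph p (x - a) * ((‖u' x‖ ^ 2 : ℝ) : ℂ))‖ ≤
      1 / (2 * ε) * ∑' x, ‖u x - u' x‖ ^ 2 + (ε * ∑' x, ‖u x‖ ^ 2 + ε * ∑' x, ‖u' x‖ ^ 2) := by
    refine (norm_tsum_le_tsum_norm s3).trans ((s3.tsum_le_tsum hpt s2).trans (le_of_eq ?_))
    rw [Summable.tsum_add (s1.mul_left _) ((hu.sq.mul_left _).add (hu'.sq.mul_left _)),
      Summable.tsum_add (hu.sq.mul_left _) (hu'.sq.mul_left _), tsum_mul_left, tsum_mul_left,
      tsum_mul_left]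
  obtain ⟨D, hD⟩ : ∃ D, D = ∑' x, ‖u x - u' x‖ ^ 2 := ⟨_, rfl⟩
  obtain ⟨A, hA⟩ : ∃ A, A = ∑' x, ‖u x‖ ^ 2 := ⟨_, rfl⟩
  obtain ⟨B, hB⟩ : ∃ B, B = ∑' x, ‖u' x‖ ^ 2 := ⟨_, rfl⟩
  rw [← hD] at h1 h6
  rw [← hA] at n1 h6
  rw [← hB] at n2 h6
  have hDr : η ^ 4 * D ≤ r ^ 2 := by
    refine h1.trans (le_of_eq ?_)
    rw [hr]
    ring
  have k1 : η * (1 / (2 * ε) * D) ≤ r / (2 * η ^ 2) := by
    have e1 : η * (1 / (2 * ε) * D) = 1 / (2 * r * η ^ 2) * (η ^ 4 * D) := by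
      rw [hε]
      field_simp
    have e2 : r / (2 * η ^ 2) = 1 / (2 * r * η ^ 2) * r ^ 2 := by
      field_simp
    rw [e1, e2]
    gcongr
  have k2 : ∀ X : ℝ, η ^ 2 * X ≤ 1 → η * (ε * X) ≤ r / η ^ 2 := by
    intro X hX
    have e1 : η * (ε * X) = r / η ^ 2 * (η ^ 2 * X) := by
      rw [hε]
      field_simp
    rw [e1]
    calc r / η ^ 2 * (η ^ 2 * X) ≤ r / η ^ 2 * 1 := by gcongr
      _ = _ := mul_one _
  have k3 := k2 A n1
  have k4 := k2 B n2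
  calc η * ‖∑' x, (ph p (x - a) * ((‖u x‖ ^ 2 : ℝ) : ℂ) -
      ph p (x - a) * ((‖u' x‖ ^ 2 : ℝ) : ℂ))‖ ≤
      η * (1 / (2 * ε) * D + (ε * A + ε * B)) := by gcongr
    _ = η * (1 / (2 * ε) * D) + (η * (ε * A) + η * (ε * B)) := by ring
    _ ≤ r / (2 * η ^ 2) + (r / η ^ 2 + r / η ^ 2) := by linarith
    _ = _ := by
      rw [hr]
      field_simp
      ring

end Pool.Agent.Y661.GD
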