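import Pool.Agent.Y661.BG.Dom

/-! The variance of the clipped Gaussian. -/

set_option autoImplicit false

open scoped BigOperators ENNReal NNReal
open MeasureTheory ProbabilityTheory

namespace Pool.Agent.Y661.GD

open Pool.Agent.W788.MFP.Gm (γ int_pow)
open Pool.Agent.Y661.BG

theorem gauss_sq : ∫ s, s ^ 2 ∂γ = 1 := by
  have h := Pool.Agent.W788.MFP.Gm.rec 1
  simpa using h

theorem cl_sq_le (b : ℝ) (hb : 0 ≤ b) (s : ℝ) : cl b s ^ 2 ≤ s ^ 2 := by
  rcases cl_between b hb s with ⟨h1, h2⟩ | ⟨h1, h2⟩ <;> nlinarith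

theorem cl_sq_int (b : ℝ) (hb : 0 ≤ b) : Integrable (fun s => cl b s ^ 2) γ := by
  refine (int_pow 2).mono' ((cl_cont b).pow 2).aestronglyMeasurable
    (Filter.Eventually.of_forall fun s => ?_)
  rw [Real.norm_eq_abs, abs_of_nonneg (sq_nonneg _)]
  exact cl_sq_le b hb s

theorem nu_var_le (b : ℝ) (hb : 0 ≤ b) : ∫ s, s ^ 2 ∂(nu b) ≤ 1 := by
  rw [int_nu (fun s => s ^ 2) (by fun_prop) b, ← gauss_sq]
  exact integral_mono (cl_sq_int b hb) (int_pow 2) fun s => cl_sq_le b hb s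

/-- the moment that controls the tail -/
noncomputable def mom : ℝ := ∫ s, s ^ 22 ∂γ

theorem mom_nonneg : 0 ≤ mom :=
  integral_nonneg fun s => by
    have : (s ^ 22 : ℝ) = (s ^ 11) ^ 2 := by ring
    rw [this]
    exact sq_nonneg _

theorem nu_var_ge (b : ℝ) (hb : 0 < b) : 1 - mom / b ^ 20 ≤ ∫ s, s ^ 2 ∂(nu b) := by
  rw [int_nu (fun s => s ^ 2) (by fun_prop) b]
  have h1 : ∫ s, (s ^ 2 - s ^ 22 / b ^ 20) ∂γ = 1 - mom / b ^ 20 := by
    rw [integral_sub (int_pow 2) ((int_pow 22).div_const _), gauss_sq, integral_div]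
    rfl
  rw [← h1]
  refine integral_mono ((int_pow 2).sub ((int_pow 22).div_const _)) (cl_sq_int b hb.le) fun s => ?_
  show s ^ 2 - s ^ 22 / b ^ 20 ≤ cl b s ^ 2
  rcases le_or_gt |s| b with h | h
  · rw [cl_eq b s h]
    have : 0 ≤ s ^ 22 / b ^ 20 := by
      have e1 : (s ^ 22 : ℝ) = (s ^ 11) ^ 2 := by ring
      rw [e1]
      positivity
    linarith
  · have h2 : b ^ 20 ≤ s ^ 20 := by
      have e1 : (s ^ 20 : ℝ) = |s| ^ 20 := by
        rw [← Even.pow_abs (by decide : Even 20) s]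
      rw [e1]
      exact pow_le_pow_left₀ hb.le h.le 20
    have h3 : s ^ 2 ≤ s ^ 22 / b ^ 20 := by
      rw [le_div_iff₀ (by positivity)]
      calc s ^ 2 * b ^ 20 ≤ s ^ 2 * s ^ 20 := by gcongr
        _ = s ^ 22 := by ring
    have := sq_nonneg (cl b s)
    linarith

end Pool.Agent.Y661.GD
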