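import Pool.Agent.TH794.HK.FinM
import Pool.Agent.Y661.GD.Eng
import Pool.Agent.Y661.GD.Mid
import Pool.Agent.Y661.GD.Var
import Pool.Agent.Y661.GD.Exi
import Pool.Agent.Y661.BG.Law

/-! The Gaussian law: the profile of the resolvent. -/

set_option autoImplicit false
set_option linter.unusedSectionVars false

open scoped BigOperators Topology
open MeasureTheory Filter Set

namespace Pool.Agent.Y661.GD

open Pool.Agent.W788.BK
open Pool.Agent.H4R2.LO (Zd)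
open Pool.Agent.W788.BK.Num
open Pool.Agent.W788.MF2.Dom
open Pool.Agent.TH794.LL2 (hexle)
open Pool.Agent.TH794.QD
open Pool.Agent.TH794.QE
open Pool.Agent.TH794.HK
open Pool.Agent.Y661.BG

/-- the engine in dimension at least three -/
theorem engG3 (hES : S_ES) (hTH : S_THIRD) (hFL : S_FLUCT) (hIN : S_INV)
    (hSU : S_SUP) (hQB : S_QB) (hLO : S_LOW) (hAD : S_ADM) (hFA : S_FAC) (hO : S_OSC)
    (d : ℕ) (hd : 3 ≤ d) (κ : ℝ) (hκ : 0 < κ) (hκ1 : κ ≤ 1) :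
    (∃ m : ℝ, 0 < m ∧ ∀ E : ℝ, |E| ≤ 2 * d - κ → m ≤ (GF (F1 d) (E : ℂ)).im ∧
      (GF (F1 d) (E : ℂ)).im ≤ (GF (F0 d) (E : ℂ)).im) ∧
    ∀ v Kp : ℝ, 0 < v → 0 ≤ Kp → ∃ y0 : ℝ, ∀ y : ℝ, y0 ≤ y →
      ∀ (ν : Measure ℝ), IsProbabilityMeasure ν → (∀ᵐ s ∂ν, |s| ≤ Real.exp (1 / 1100 * y)) →
      ∫ s, s ∂ν = 0 → DomBy ν 1 → ∀ Vv : ℝ, ∫ s, s ^ 2 ∂ν = Vv → v ≤ Vv → Vv ≤ 1 →
      ∀ t : ℝ, Real.exp (-(81 / 40) * y) ≤ t → t ≤ Real.exp (-(161 / 80) * y) →
      ∃ G : Set (Zd d → ℝ), MeasurableSet G ∧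
        1 - Real.exp (-Real.exp (y / 100)) ≤ (Measure.infinitePi fun _ : Zd d => ν).real G ∧
        ∀ ξ ∈ G, QLawK d (fun E => |E| ≤ 2 * d - κ)
          (Tg (fun E => GF (F0 d) (E : ℂ)) (fun E => GF (F1 d) (E : ℂ)) t
            (Real.exp (-2 * y) * Vv))
          (Real.exp (-1 * y)) (Real.exp (Real.exp (y / 100))) t (Real.exp (-10 * y))
          (Kp * (t * (Real.exp (-2 * y) * Vv))) (Real.exp (-(1 / 180) * y)) ξ := by
  have hd0 : (0 : ℝ) ≤ d := Nat.cast_nonneg d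
  have hreg : ∀ E : ℝ, |E| ≤ 2 * d - κ → RegE d κ E := fun E hE => Or.inr ⟨hd, by linarith⟩
  obtain ⟨m, hm, hl⟩ := low_lim d (by omega) κ hκ hκ1 (fun E => GF (F1 d) (E : ℂ))
    fun E _ => lim3 _ _ (hol1 hO d hd) E
  refine ⟨⟨m, hm, fun E hE => ⟨hl E (hreg E hE) hE, (GF_im hO d hd (E : ℂ) (by simp)).2⟩⟩,
    fun v Kp hv hKp => ?_⟩
  obtain ⟨CQ, hCQ, hdat⟩ := dat3 hQB hO d hd
  exact engineKG hES hTH hFL hIN hSU hLO hAD hFA d (by omega) (fun _ => True)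
    (fun _ => True) (fun E => |E| ≤ 2 * d - κ) C1 CQ
    (Pool.Agent.TH794.QD.CH d) (fun E => GF (F0 d) (E : ℂ)) (fun E => GF (F1 d) (E : ℂ)) hdat
    C1_ge hCQ (CH_nonneg d) 1 one_pos
    (fun E hE => ⟨by linarith, trivial, fun x hx => trivial⟩)
    (fun E x hE hx => trivial)
    v (m / 2) Kp hv (by positivity) hKp
    (fun E hE => by
      have h1 := hl E (hreg E hE) hE
      have h2 := (GF_im hO d hd (E : ℂ) (by simp)).2
      linarith)

/-- **the profile of the resolvent of the Gaussian model** -/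
theorem finD (hES : S_ES) (hTH : S_THIRD) (hFL : S_FLUCT) (hIN : S_INV)
    (hSU : S_SUP) (hQB : S_QB) (hLO : S_LOW) (hAD : S_ADM) (hFA : S_FAC) (hO : S_OSC)
    (d : ℕ) (hd : 3 ≤ d) (κ : ℝ) (hκ : 0 < κ) (hκ1 : κ ≤ 1) :
    (∃ m : ℝ, 0 < m ∧ ∀ E : ℝ, |E| ≤ 2 * d - κ → m ≤ (GF (F1 d) (E : ℂ)).im ∧
      (GF (F1 d) (E : ℂ)).im ≤ (GF (F0 d) (E : ℂ)).im) ∧
    ∀ K : ℝ, 0 ≤ K → ∃ c0 : ℝ, 0 < c0 ∧ ∀ c : ℝ, 0 < c → c ≤ c0 →
      ∃ G : Set (Zd d → ℝ), MeasurableSet G ∧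
        1 - Real.exp (-c ^ (-(1 / 1000) : ℝ)) ≤ (Pool.Agent.Y661.BG.Pg d).real G ∧
        ∀ ξ ∈ G, ∀ a : Zd d, ‖a‖ ≤ Real.exp (c ^ (-(1 / 1000) : ℝ)) →
          ∀ E : ℝ, |E| ≤ 2 * d - κ → ∀ η : ℝ, c ^ (81 / 40 : ℝ) ≤ η →
          η ≤ c ^ (161 / 80 : ℝ) →
          ∀ u : Zd d → ℂ, Rs d (fun x => -(c * ξ x)) a (-E) η u →
          ∀ q : Fin d → ℝ, ∑ i, q i ^ 2 ≤ K →
            ‖((η : ℝ) : ℂ) * ∑' x, ph (fun i => Real.sqrt (η * c ^ 2) * q i) (x - a) *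
                ((‖u x‖ ^ 2 : ℝ) : ℂ) -
              (((GF (F0 d) (E : ℂ)).im / (1 + (∑ i, q i ^ 2) * ((GF (F1 d) (E : ℂ)).im /
                (GF (F0 d) (E : ℂ)).im ^ 2)) : ℝ) : ℂ)‖ ≤ c ^ (1 / 200 : ℝ) := by
  obtain ⟨⟨m, hm, hl⟩, hE3⟩ := engG3 hES hTH hFL hIN hSU hQB hLO hAD hFA hO d hd κ hκ hκ1
  refine ⟨⟨m, hm, hl⟩, fun K hK => ?_⟩
  have hd0 : (0 : ℝ) < d := by
    have : (3 : ℝ) ≤ d := by exact_mod_cast hd
    linarith
  obtain ⟨y0, h0⟩ := hE3 (1 / 2) (4 * K) (by norm_num) (by positivity)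
  have hmom := mom_nonneg
  obtain ⟨y2, hy2⟩ := Filter.eventually_atTop.1
    ((ev2 (8 * (d + 3)) (1 / 1000) (1 / 550) 0 (by norm_num)).and
    ((ev2 2 (1 / 1000) (1 / 100) 0 (by norm_num)).and
    ((ev1 28 (1 / 100) 1 (by norm_num)).and
    ((ev2 4 (-(1 / 180)) (-(1 / 200)) 0 (by norm_num)).and
    ((ev2 (8 * K) (-(319 / 40)) (-(1 / 200)) 0 (by norm_num)).and
    ((ev2 (8 * K * mom) (-(1 / 55)) (-(1 / 200)) 0 (by norm_num)).and
    ((ev2 (2 * mom) (-(1 / 55)) 0 0 (by norm_num)).and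
    ((ev2 (40 * d) 5 6 0 (by norm_num)).and
    (ev1 6 (1 / 1000) 1 (by norm_num))))))))))
  obtain ⟨y1, hy1⟩ : ∃ y1, y1 = max (max y0 y2) 4 := ⟨_, rfl⟩
  refine ⟨Real.exp (-y1), Real.exp_pos _, ?_⟩
  intro c hc hc0
  obtain ⟨y, hy⟩ : ∃ y, y = Real.log (1 / c) := ⟨_, rfl⟩
  have hlogc : Real.log c = -y := by
    rw [hy, one_div, Real.log_inv, neg_neg]
  have hyy1 : y1 ≤ y := by
    have h1 := Real.log_le_log hc hc0
    rw [Real.log_exp, hlogc] at h1
    linarith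
  have hyy0 : y0 ≤ y := le_trans (by rw [hy1]; exact (le_max_left _ _).trans (le_max_left _ _)) hyy1
  have hyy2 : y2 ≤ y := le_trans (by rw [hy1]; exact (le_max_right _ _).trans (le_max_left _ _))
    hyy1
  have hy4 : 4 ≤ y := le_trans (by rw [hy1]; exact le_max_right _ _) hyy1
  have hyone : 1 ≤ y := by linarith
  obtain ⟨n1, n2, n3, n4, n5, n6, n7, n8, n9⟩ := hy2 y hyy2
  simp only [pow_zero, mul_one, pow_one, zero_mul, Real.exp_zero] at n1 n2 n3 n4 n5 n6 n7 n8 n9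
  have hrp : ∀ p q : ℝ, q = -p → c ^ p = Real.exp (q * y) := by
    intro p q hpq
    rw [Real.rpow_def_of_pos hc, hlogc, hpq]
    congr 1
    ring
  have e1 : c ^ (-(1 / 1000) : ℝ) = Real.exp (1 / 1000 * y) := hrp _ _ (by norm_num)
  have e2 : c ^ (81 / 40 : ℝ) = Real.exp (-(81 / 40) * y) := hrp _ _ (by norm_num)
  have e2' : c ^ (161 / 80 : ℝ) = Real.exp (-(161 / 80) * y) := hrp _ _ (by norm_num)
  have e3 : c ^ (1 / 200 : ℝ) = Real.exp (-(1 / 200) * y) := hrp _ _ (by norm_num)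
  have e6 : c = Real.exp (-1 * y) := by
    rw [neg_one_mul, ← hlogc, Real.exp_log hc]
  have e7 : c ^ 2 = Real.exp (-2 * y) := by
    rw [e6, ex_pow]
    norm_num
  have e8 : Real.exp (y / 100) = Real.exp (1 / 100 * y) := by
    congr 1
    ring
  -- the clipped law
  obtain ⟨b, hbdef⟩ : ∃ b, b = Real.exp (1 / 1100 * y) := ⟨_, rfl⟩
  have hb0 : 0 < b := by rw [hbdef]; positivity
  obtain ⟨Vv, hVv⟩ : ∃ Vv, ∫ s, s ^ 2 ∂(nu b) = Vv := ⟨_, rfl⟩
  have hV1 : Vv ≤ 1 := by rw [← hVv]; exact nu_var_le b hb0.le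
  have hVg : 1 - Vv ≤ mom * Real.exp (-(1 / 55) * y) := by
    have h1 := nu_var_ge b hb0
    rw [hVv] at h1
    have h2 : mom / b ^ 20 = mom * Real.exp (-(1 / 55) * y) := by
      rw [hbdef, ex_pow, div_eq_mul_inv, ex_inv]
      congr 2
      push_cast
      ring
    linarith
  have hV2 : 1 / 2 ≤ Vv := by linarith
  have hV0 : 0 < Vv := by linarith
  -- the net
  obtain ⟨τ, hτ⟩ : ∃ τ, τ = Real.exp (-(81 / 40) * y) := ⟨_, rfl⟩
  obtain ⟨τ', hτ'⟩ : ∃ τ, τ = Real.exp (-(161 / 80) * y) := ⟨_, rfl⟩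
  obtain ⟨ε, hε⟩ : ∃ ε, ε = Real.exp (-10 * y) := ⟨_, rfl⟩
  have hτ0 : 0 < τ := by rw [hτ]; positivity
  have hε0 : 0 < ε := by rw [hε]; positivity
  have hττ : τ ≤ τ' := by
    rw [hτ, hτ']
    exact hexle hyone _ _ (by norm_num)
  have hετ : ε ≤ τ := by
    rw [hε, hτ]
    exact hexle hyone _ _ (by norm_num)
  have hτ1 : τ' ≤ 1 := by
    rw [hτ']
    exact Real.exp_le_one_iff.2 (by linarith)
  obtain ⟨tk, htk⟩ : ∃ tk : ℕ → ℝ, tk = fun k : ℕ => min (τ + ε * (k : ℝ)) τ' := ⟨_, rfl⟩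
  have htkk : ∀ k, tk k = min (τ + ε * k) τ' := fun k => by rw [htk]
  have htkl : ∀ k, τ ≤ tk k := by
    intro k
    rw [htkk]
    refine le_min ?_ hττ
    have : 0 ≤ ε * (k : ℝ) := by positivity
    linarith
  have htku : ∀ k, tk k ≤ τ' := by
    intro k
    rw [htkk]
    exact min_le_right _ _
  obtain ⟨Kn, hKn⟩ : ∃ Kn : ℕ, Kn = ⌈Real.exp (10 * y)⌉₊ := ⟨_, rfl⟩
  have hK1 : Real.exp (10 * y) ≤ Kn := by
    rw [hKn]
    exact Nat.le_ceil _
  have hK2 : (Kn : ℝ) + 1 ≤ Real.exp (13 * y + 2) := by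
    have h1 := Nat.ceil_lt_add_one (Real.exp_pos (10 * y)).le
    rw [← hKn] at h1
    have h2 : (1 : ℝ) ≤ Real.exp (13 * y) := Real.one_le_exp (by linarith)
    have h5 : Real.exp (10 * y) ≤ Real.exp (13 * y) := Real.exp_le_exp.2 (by linarith)
    have h3 := Real.add_one_le_exp (2 : ℝ)
    rw [Real.exp_add]
    have h4 : Real.exp (13 * y) * 3 ≤ Real.exp (13 * y) * Real.exp 2 := by
      apply mul_le_mul_of_nonneg_left _ (Real.exp_pos (13 * y)).le
      linarith only [h3]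
    linarith only [h1, h2, h4, h5]
  -- the events
  choose Gk hGm hGP hGL using fun k : ℕ => h0 y hyy0 (nu b) (nu_prob b)
    (by rw [← hbdef]; exact nu_bd b hb0.le) (nu_mean b hb0.le) (nu_dom b hb0.le) Vv hVv hV2 hV1
    (tk k) (by rw [← hτ]; exact htkl k) (by rw [← hτ']; exact htku k)
  obtain ⟨Γ, hΓ⟩ : ∃ Γ, Γ = ⋂ k ∈ Finset.range (Kn + 1), Gk k := ⟨_, rfl⟩
  have hmΓ : MeasurableSet Γ := by
    rw [hΓ]
    exact Finset.measurableSet_biInter _ fun k _ => hGm k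
  obtain ⟨A, hA⟩ : ∃ A, A = Real.exp (1 / 1000 * y) := ⟨_, rfl⟩
  have hA1 : 1 ≤ A := by
    rw [hA]
    exact Real.one_le_exp (by linarith)
  rw [← hA] at n1 n2 e1 n9
  have hΓP : 1 - Real.exp (-A - 1) ≤ (Measure.infinitePi fun _ : Zd d => nu b).real Γ := by
    have h2 := probReal_add_probReal_compl (μ := Measure.infinitePi fun _ : Zd d => nu b) hmΓ
    have h3 : (Measure.infinitePi fun _ : Zd d => nu b).real Γᶜ ≤ Real.exp (-A - 1) := by
      have e8' : Γᶜ = ⋃ k ∈ Finset.range (Kn + 1), (Gk k)ᶜ := by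
        rw [hΓ]
        simp only [Set.compl_iInter]
      rw [e8']
      have h4 : ∀ k, (Measure.infinitePi fun _ : Zd d => nu b).real (Gk k)ᶜ ≤
          Real.exp (-Real.exp (1 / 100 * y)) := by
        intro k
        have h5 := probReal_add_probReal_compl (μ := Measure.infinitePi fun _ : Zd d => nu b)
          (hGm k)
        have h6' := hGP k
        rw [e8] at h6'
        linarith
      refine (measureReal_biUnion_finset_le _ _).trans
        ((Finset.sum_le_sum fun k _ => h4 k).trans ?_)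
      rw [Finset.sum_const, Finset.card_range, nsmul_eq_mul]
      push_cast
      calc ((Kn : ℝ) + 1) * Real.exp (-Real.exp (1 / 100 * y)) ≤
          Real.exp (13 * y + 2) * Real.exp (-Real.exp (1 / 100 * y)) := by gcongr
        _ = Real.exp (13 * y + 2 - Real.exp (1 / 100 * y)) := by
            rw [← Real.exp_add]
            congr 1
        _ ≤ Real.exp (-A - 1) := by
            apply Real.exp_le_exp.2
            linarith only [n2, n3, hy4]
    linarith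
  -- the transfer
  obtain ⟨ℓ, hℓ⟩ : ∃ ℓ, ℓ = Real.exp A := ⟨_, rfl⟩
  have hℓ1 : 1 ≤ ℓ := by
    rw [hℓ]
    exact Real.one_le_exp (by linarith)
  have hℓ0 : 0 < ℓ := by linarith
  obtain ⟨G, hG, hP, hGG⟩ := transfer (d := d) b (2 * ℓ) (Real.exp (-A - 1)) hb0.le
    (by linarith) Γ hmΓ hΓP
  have he1g := Real.exp_one_gt_d9
  refine ⟨G, hG, ?_, fun ξ hξ => ?_⟩
  · have hb2 : b ^ 2 = Real.exp (1 / 550 * y) := by
      rw [hbdef, ex_pow]
      congr 1
      push_cast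
      ring
    have h6 : (3 * (2 * ℓ)) ^ d ≤ Real.exp (2 * d + d * A) := by
      have f1 : 3 * (2 * ℓ) ≤ Real.exp (2 + A) := by
        have f2 : (6 : ℝ) ≤ Real.exp 2 := by
          have : Real.exp 2 = Real.exp 1 * Real.exp 1 := by
            rw [← Real.exp_add]
            norm_num
          rw [this]
          nlinarith
        rw [Real.exp_add, hℓ]
        have := Real.exp_pos A
        nlinarith
      calc (3 * (2 * ℓ)) ^ d ≤ Real.exp (2 + A) ^ d := by gcongr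
        _ = _ := by
          rw [← Real.exp_nat_mul]
          congr 1
          ring
    have h2e : (2 : ℝ) ≤ Real.exp 1 := by linarith
    have h8 : (3 * (2 * ℓ)) ^ d * (2 * Real.exp (-(b ^ 2 / 2))) ≤ Real.exp (-A - 1) := by
      rw [hb2]
      calc (3 * (2 * ℓ)) ^ d * (2 * Real.exp (-(Real.exp (1 / 550 * y) / 2))) ≤
          Real.exp (2 * d + d * A) * (Real.exp 1 *
            Real.exp (-(Real.exp (1 / 550 * y) / 2))) := by
            gcongr
        _ = Real.exp (2 * d + d * A + (1 + -(Real.exp (1 / 550 * y) / 2))) := by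
            rw [← Real.exp_add, ← Real.exp_add]
        _ ≤ Real.exp (-A - 1) := by
            apply Real.exp_le_exp.2
            have e3' : (d : ℝ) ≤ d * A := le_mul_of_one_le_right hd0.le hA1
            nlinarith
    have h9 : Real.exp (-A - 1) + Real.exp (-A - 1) ≤ Real.exp (-A) := by
      have : Real.exp (-A) = Real.exp 1 * Real.exp (-A - 1) := by
        rw [← Real.exp_add]
        congr 1
        ring
      rw [this]
      have := Real.exp_pos (-A - 1)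
      nlinarith
    rw [e1]
    linarith
  · intro a ha E hE η hηl hηu u hu q hq
    obtain ⟨g1, g2⟩ := hGG ξ hξ
    rw [e2, ← hτ] at hηl
    rw [e2', ← hτ'] at hηu
    rw [e1, ← hℓ] at ha
    have hη0 : 0 < η := hτ0.trans_le hηl
    obtain ⟨ξ', hξ'⟩ : ∃ ξ' : Zd d → ℝ, ξ' = fun x => cl b (ξ x) := ⟨_, rfl⟩
    rw [← hξ'] at g1
    have hag : ∀ x : Zd d, ‖x‖ < 2 * ℓ → -(c * ξ x) = -(c * ξ' x) := by
      intro x hx
      rw [hξ']
      simp only
      rw [cl_eq b _ (g2 x hx.le)]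
    obtain ⟨u', hu'⟩ := rs_exists_unb (fun x => -(c * ξ' x)) a (-E) η hη0
    have hcmp := ch_cmp (fun x => -(c * ξ x)) (fun x => -(c * ξ' x)) a (-E) η ℓ hη0 hℓ0 ha hag
      u u' hu hu' hd0 (fun i => Real.sqrt (η * c ^ 2) * q i)
    -- the point of the net
    have hωk : ∀ k, k ≤ Kn → ξ' ∈ Gk k := by
      intro k hk
      rw [hΓ] at g1
      exact Set.mem_iInter₂.1 g1 k (Finset.mem_range.2 (by omega))
    have ha' : ‖a‖ ≤ Real.exp (Real.exp (y / 100)) := by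
      refine ha.trans ?_
      rw [hℓ]
      apply Real.exp_le_exp.2
      rw [hA, e8]
      apply Real.exp_le_exp.2
      linarith
    obtain ⟨k, hk⟩ : ∃ k : ℕ, k = ⌊(η - τ) / ε⌋₊ := ⟨_, rfl⟩
    have hq0 : 0 ≤ (η - τ) / ε := div_nonneg (by linarith) hε0.le
    have hk1 : (k : ℝ) ≤ (η - τ) / ε := by
      rw [hk]
      exact Nat.floor_le hq0
    have hk2 : (η - τ) / ε < k + 1 := by
      rw [hk]
      exact Nat.lt_floor_add_one _
    rw [le_div_iff₀ hε0] at hk1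
    rw [div_lt_iff₀ hε0] at hk2
    have hkt : tk k = τ + ε * k := by
      rw [htkk]
      apply min_eq_left
      linarith
    have hkK : k ≤ Kn := by
      have h1 : (k : ℝ) ≤ Kn := by
        have h2 : (k : ℝ) * ε ≤ 1 := by linarith
        have h3 : (k : ℝ) ≤ ε⁻¹ := by
          rw [← one_div, le_div_iff₀ hε0]
          exact h2
        have h4 : ε⁻¹ = Real.exp (10 * y) := by
          rw [hε, ex_inv]
          norm_num
        rw [h4] at h3
        exact h3.trans hK1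
      exact_mod_cast h1
    have htk1 : tk k ≤ η := by
      rw [hkt]
      linarith
    have htk2 : η ≤ tk k + ε := by
      rw [hkt]
      linarith
    have htk0 : 0 < tk k := hτ0.trans_le (htkl k)
    have h2t : η ≤ 2 * tk k := by
      have := htkl k
      linarith
    have hc2 : 0 < c ^ 2 := by positivity
    have hr2 : Real.sqrt (η * c ^ 2) ^ 2 = η * c ^ 2 := Real.sq_sqrt (by positivity)
    have hsum : ∑ i, (Real.sqrt (η * c ^ 2) * q i) ^ 2 = η * c ^ 2 * ∑ i, q i ^ 2 := by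
      rw [Finset.mul_sum]
      refine Finset.sum_congr rfl fun i _ => ?_
      rw [mul_pow, hr2]
    have hqs0 : 0 ≤ ∑ i, q i ^ 2 := Finset.sum_nonneg fun i _ => sq_nonneg _
    have hp2 : ∑ i, (Real.sqrt (η * c ^ 2) * q i) ^ 2 ≤
        4 * K * (tk k * (Real.exp (-2 * y) * Vv)) := by
      rw [hsum, ← e7]
      calc η * c ^ 2 * ∑ i, q i ^ 2 ≤ (2 * tk k) * c ^ 2 * K := by gcongr
        _ = 4 * K * (tk k * (c ^ 2 * (1 / 2))) := by ring
        _ ≤ _ := by gcongr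
    have hlaw1 := hGL k _ (hωk k hkK) a ha' E hE η htk1 (by rw [← hε]; exact htk2) _ _
      (by
        have h5 := rs_LS hu' ξ' 0 (Real.exp (-1 * y)) (fun x => by
          rw [← e6]
          ring)
        rw [zero_sub, neg_neg] at h5
        exact h5) _ hp2
    have e9 : (fun x => ph (fun i => Real.sqrt (η * c ^ 2) * q i) (x - a) *
        (((-(u' x).re) ^ 2 + (u' x).im ^ 2 : ℝ) : ℂ)) =
        fun x => ph (fun i => Real.sqrt (η * c ^ 2) * q i) (x - a) * ((‖u' x‖ ^ 2 : ℝ) : ℂ) := by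
      funext x
      rw [← Complex.normSq_eq_norm_sq, Complex.normSq_apply]
      congr 2
      ring
    rw [e9] at hlaw1
    obtain ⟨q1, q2⟩ := hl E hE
    obtain ⟨T1, hT1⟩ : ∃ T1 : ℝ, T1 = Tg (fun E => GF (F0 d) (E : ℂ)) (fun E => GF (F1 d) (E : ℂ))
      (tk k) (Real.exp (-2 * y) * Vv) E (fun i => Real.sqrt (η * c ^ 2) * q i) := ⟨_, rfl⟩
    obtain ⟨T2, hT2⟩ : ∃ T2 : ℝ, T2 = (GF (F0 d) (E : ℂ)).im / (1 + (∑ i, q i ^ 2) *
      ((GF (F1 d) (E : ℂ)).im / (GF (F0 d) (E : ℂ)).im ^ 2)) := ⟨_, rfl⟩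
    have hTT : |T1 - T2| ≤ 2 * K * (ε * τ⁻¹) + 2 * K * (mom * Real.exp (-(1 / 55) * y)) := by
      have h1 : T1 = (GF (F0 d) (E : ℂ)).im / (1 + ((∑ i, q i ^ 2) * (η / (tk k * Vv))) *
          ((GF (F1 d) (E : ℂ)).im / (GF (F0 d) (E : ℂ)).im ^ 2)) := by
        rw [hT1]
        unfold Tg
        rw [hsum, ← e7]
        congr 3
        field_simp
      rw [h1, hT2]
      refine (Tg_cmp _ _ _ _ (by linarith) (by linarith) q2 (by positivity) hqs0).trans ?_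
      have h2 : (∑ i, q i ^ 2) * (η / (tk k * Vv)) - ∑ i, q i ^ 2 =
          (∑ i, q i ^ 2) * (((η - tk k) * (tk k)⁻¹ + (1 - Vv)) * Vv⁻¹) := by
        field_simp
        ring
      have h3 : 0 ≤ (η - tk k) * (tk k)⁻¹ := mul_nonneg (by linarith) (by positivity)
      have h4 : 0 ≤ 1 - Vv := by linarith
      rw [h2, abs_of_nonneg (by positivity)]
      have h5 : Vv⁻¹ ≤ 2 := by
        rw [inv_le_comm₀ hV0 (by norm_num)]
        linarith
      have h6 : (η - tk k) * (tk k)⁻¹ ≤ ε * τ⁻¹ := by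
        have h7 : (tk k)⁻¹ ≤ τ⁻¹ := inv_anti₀ hτ0 (htkl k)
        have h8 : η - tk k ≤ ε := by linarith
        gcongr
      calc (∑ i, q i ^ 2) * (((η - tk k) * (tk k)⁻¹ + (1 - Vv)) * Vv⁻¹) ≤
          K * ((ε * τ⁻¹ + mom * Real.exp (-(1 / 55) * y)) * 2) := by gcongr
        _ = _ := by ring
    rw [← hT1] at hlaw1
    rw [← hT2]
    obtain ⟨X, hX⟩ : ∃ X : ℂ, X = ((η : ℝ) : ℂ) * ∑' x,
      ph (fun i => Real.sqrt (η * c ^ 2) * q i) (x - a) * ((‖u x‖ ^ 2 : ℝ) : ℂ) := ⟨_, rfl⟩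
    obtain ⟨X', hX'⟩ : ∃ X : ℂ, X = ((η : ℝ) : ℂ) * ∑' x,
      ph (fun i => Real.sqrt (η * c ^ 2) * q i) (x - a) * ((‖u' x‖ ^ 2 : ℝ) : ℂ) := ⟨_, rfl⟩
    rw [← hX, ← hX'] at hcmp
    rw [← hX'] at hlaw1
    rw [← hX]
    have e10 : X - (T2 : ℂ) = (X - X') + ((X' - (T1 : ℂ)) + ((T1 - T2 : ℝ) : ℂ)) := by
      push_cast
      ring
    rw [e10]
    have h5 : 2 * K * (ε * τ⁻¹) ≤ 2 * K * Real.exp (-(319 / 40) * y) := by
      apply le_of_eq
      rw [hε, hτ, ex_inv, ex_mul]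
      norm_num
    have h6 : 10 * d / (ℓ * η ^ 2) ≤ 1 / 4 * Real.exp (-(1 / 200) * y) := by
      have g3 : Real.exp (6 * y) ≤ ℓ := by
        rw [hℓ]
        exact Real.exp_le_exp.2 n9
      have g4 : Real.exp (-(81 / 20) * y) ≤ η ^ 2 := by
        calc Real.exp (-(81 / 20) * y) = τ ^ 2 := by
              rw [hτ, ex_pow]
              norm_num
          _ ≤ η ^ 2 := by gcongr
      rw [div_le_iff₀ (by positivity)]
      calc 10 * (d : ℝ) = 1 / 4 * (40 * d * Real.exp (5 * y)) * Real.exp (-5 * y) := by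
            have : Real.exp (5 * y) * Real.exp (-5 * y) = 1 := by
              rw [ex_mul]
              simp
            linear_combination (-(10 * (d : ℝ))) * this
        _ ≤ 1 / 4 * Real.exp (6 * y) * Real.exp (-5 * y) := by gcongr
        _ ≤ 1 / 4 * Real.exp (6 * y) * Real.exp (-(1 / 200 + 81 / 20) * y) := by
            gcongr
            linarith
        _ = 1 / 4 * Real.exp (-(1 / 200) * y) * (Real.exp (6 * y) * Real.exp (-(81 / 20) * y)) := by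
            have : Real.exp (-(1 / 200 + 81 / 20) * y) =
                Real.exp (-(1 / 200) * y) * Real.exp (-(81 / 20) * y) := by
              rw [ex_mul]
              congr 1
              ring
            rw [this]
            ring
        _ ≤ 1 / 4 * Real.exp (-(1 / 200) * y) * (ℓ * η ^ 2) := by gcongr
    refine (norm_add_le _ _).trans ?_
    refine (add_le_add hcmp ((norm_add_le _ _).trans (add_le_add hlaw1 (le_refl _)))).trans ?_
    rw [Complex.norm_real, Real.norm_eq_abs, e3]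
    linarith

end Pool.Agent.Y661.GD
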